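import Pool.Agent.U281.LAP.Site
import Pool.Agent.U281.GEN.Eig

/-!
Dependence of the resolvent on the potential.
-/

set_option autoImplicit false

namespace Pool.Agent.U281.WG

open MeasureTheory Filter Pool.Agent.W792.LL Pool.Agent.W792.WA Pool.Agent.U281.GEN
  Pool.Agent.W19.WAPsi Pool.Agent.U281.LAP
open scoped Topology

noncomputable section

variable {d : ℕ}

theorem isW_norm (K : C(UnitAddTorus (Fin d), ℝ)) (v : (Fin d → ℤ) → ℝ) {z : ℂ}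
    {f W : l2 (Fin d → ℤ)} (h : IsW K v z f W) : z.im * ‖W‖ ≤ ‖f‖ := by
  have h1 := green_id K v z h h
  rw [inn_self] at h1
  have h2 := congrArg Complex.im h1
  rw [Complex.add_im, Complex.add_im, Complex.im_mul_ofReal, Complex.im_mul_ofReal,
    Complex.conj_im] at h2
  have h3 : |(inner ℂ f W : ℂ).im| ≤ ‖f‖ * ‖W‖ :=
    (Complex.abs_im_le_norm _).trans (norm_inner_le_norm _ _)
  have h4 : |(inner ℂ W f : ℂ).im| ≤ ‖f‖ * ‖W‖ :=
    (Complex.abs_im_le_norm _).trans ((norm_inner_le_norm _ _).trans_eq (mul_comm _ _))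
  have h5 := le_abs_self (inner ℂ f W : ℂ).im
  have h6 := neg_abs_le (inner ℂ W f : ℂ).im
  have h7 : z.im * ‖W‖ ^ 2 ≤ ‖f‖ * ‖W‖ := by linarith
  rcases eq_or_lt_of_le (norm_nonneg W) with h8 | h8
  · rw [← h8, mul_zero]
    exact norm_nonneg f
  · have h9 : (z.im * ‖W‖) * ‖W‖ ≤ ‖f‖ * ‖W‖ := by nlinarith
    exact le_of_mul_le_mul_right h9 h8

theorem dl_norm (x : Fin d → ℤ) : ‖(dl x : l2 (Fin d → ℤ))‖ = 1 := by
  have h1 := Pool.Agent.W883.LL.norm_sq_l2 (dl x : l2 (Fin d → ℤ))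
  have h2 : ∑' y, ‖(dl x : l2 (Fin d → ℤ)) y‖ ^ 2 = 1 := by
    rw [tsum_eq_single x]
    · rw [dl_at]
      simp
    · intro y hy
      rw [dl_at, if_neg hy]
      simp
  rw [h2] at h1
  have h3 := norm_nonneg (dl x : l2 (Fin d → ℤ))
  nlinarith

theorem pot_sub (K : C(UnitAddTorus (Fin d), ℝ)) (v v' : (Fin d → ℤ) → ℝ) {z : ℂ}
    (hz : 0 < z.im) {δ : ℝ} (hδ : 0 ≤ δ) (h : ∀ y, |v y - v' y| ≤ δ) (x : Fin d → ℤ) :
    ‖Gv K v z (dl x) x - Gv K v' z (dl x) x‖ ≤ δ / z.im ^ 2 := by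
  obtain ⟨u, hu⟩ : ∃ u, u = Gv K v z (dl x) := ⟨_, rfl⟩
  obtain ⟨u', hu'⟩ : ∃ u', u' = Gv K v' z (dl x) := ⟨_, rfl⟩
  have h1 : IsW K v z (dl x) u := by rw [hu]; exact isW_Gv K v hz (dl x)
  have h2 : IsW K v' z (dl x) u' := by rw [hu']; exact isW_Gv K v' hz (dl x)
  have hs' : Summable fun y => ‖u' y‖ ^ 2 := by
    have h3 := (memℓp_gen_iff (by norm_num : 0 < (2 : ENNReal).toReal)).1 (lp.memℓp u')
    simpa using h3
  have hle : ∀ y, ‖((v' y - v y : ℝ) : ℂ) * u' y‖ ^ 2 ≤ δ ^ 2 * ‖u' y‖ ^ 2 := by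
    intro y
    rw [norm_mul, mul_pow, Complex.norm_real, Real.norm_eq_abs, abs_sub_comm]
    have := pow_le_pow_left₀ (abs_nonneg _) (h y) 2
    gcongr
  have hs : Summable fun y => ‖((v' y - v y : ℝ) : ℂ) * u' y‖ ^ 2 :=
    Summable.of_nonneg_of_le (fun y => by positivity) hle (hs'.mul_left _)
  obtain ⟨g, hg⟩ : ∃ g : l2 (Fin d → ℤ), g = tol2 (fun y => ((v' y - v y : ℝ) : ℂ) * u' y) hs :=
    ⟨_, rfl⟩
  have hgy : ∀ y, g y = ((v' y - v y : ℝ) : ℂ) * u' y := fun y => by rw [hg]; rfl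
  have hgn : ‖g‖ ≤ δ * ‖u'‖ := by
    have e1 := Pool.Agent.W883.LL.norm_sq_l2 g
    have e2 := Pool.Agent.W883.LL.norm_sq_l2 u'
    have e3 : ‖g‖ ^ 2 ≤ (δ * ‖u'‖) ^ 2 := by
      rw [e1, mul_pow, e2, ← tsum_mul_left]
      refine Summable.tsum_le_tsum (fun y => ?_) ?_ (hs'.mul_left _)
      · rw [hgy]
        exact hle y
      · simp_rw [hgy]
        exact hs
    exact le_of_sq_le_sq e3 (by positivity)
  have hW : IsW K v z g (u - u') := by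
    intro y
    have e1 := h1 y
    have e2 := h2 y
    have e3 : ∀ (a b : l2 (Fin d → ℤ)), (a - b : l2 (Fin d → ℤ)) y = a y - b y := fun a b => rfl
    have e4 : ∀ (a b : l2 (Fin d → ℤ)), (a + b : l2 (Fin d → ℤ)) y = a y + b y := fun a b => rfl
    have e5 : ∀ (c : ℂ) (a : l2 (Fin d → ℤ)), (c • a : l2 (Fin d → ℤ)) y = c * a y :=
      fun c a => rfl
    rw [map_sub]
    simp only [e3, e4, e5, hgy] at e1 e2 ⊢
    push_cast
    linear_combination e1 - e2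
  have h3 := isW_norm K v hW
  have h4 := isW_norm K v' h2
  rw [dl_norm] at h4
  have h5 : ‖(u - u' : l2 (Fin d → ℤ)) x‖ ≤ ‖u - u'‖ := lp.norm_apply_le_norm (by norm_num) _ x
  have h6 : ‖Gv K v z (dl x) x - Gv K v' z (dl x) x‖ ≤ ‖u - u'‖ := by
    rw [← hu, ← hu']
    exact h5
  refine h6.trans ?_
  rw [le_div_iff₀ (by positivity)]
  have h7 : z.im * (z.im * ‖u - u'‖) ≤ δ * (z.im * ‖u'‖) := by
    calc z.im * (z.im * ‖u - u'‖) ≤ z.im * ‖g‖ := mul_le_mul_of_nonneg_left h3 hz.le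
      _ ≤ z.im * (δ * ‖u'‖) := mul_le_mul_of_nonneg_left hgn hz.le
      _ = _ := by ring
  have h8 : δ * (z.im * ‖u'‖) ≤ δ * 1 := mul_le_mul_of_nonneg_left h4 hδ
  nlinarith

/-- The diagonal elements for coupling one. -/
theorem Gr_sub (K : C(UnitAddTorus (Fin d), ℝ)) (v v' : (Fin d → ℤ) → ℝ) {z : ℂ}
    (hz : 0 < z.im) {δ : ℝ} (hδ : 0 ≤ δ) (h : ∀ y, |v y - v' y| ≤ δ) (x : Fin d → ℤ) :
    ‖Gr K 1 v z x x - Gr K 1 v' z x x‖ ≤ δ / z.im ^ 2 := by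
  unfold Gr
  simp only [one_mul]
  exact pot_sub K v v' hz hδ h x

end

end Pool.Agent.U281.WG
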