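import Pool.Agent.U281.WG.Fin
import Pool.Agent.U281.WG.Pot

/-!
Total variation and return amplitudes under small changes of the potential.
-/

set_option autoImplicit false

namespace Pool.Agent.U281.WG

open MeasureTheory Filter Set
open scoped ENNReal Topology
open Pool.Agent.W792.WA Pool.Agent.U281.LAP Pool.Agent.U281.LU Pool.Agent.W792.LL

noncomputable section

theorem dens_le {a b : ℝ} {D D' : ℝ → ℝ} (hD' : Measurable D') (h0' : ∀ E, 0 ≤ D' E)
    {J : Set ℝ} (hJs : J ⊆ Ioo a b) :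
    ∫⁻ E in J, ENNReal.ofReal (D E) ≤ (∫⁻ E in J, ENNReal.ofReal (D' E))
      + ∫⁻ E in Ioo a b, ENNReal.ofReal |D E - D' E| := by
  calc ∫⁻ E in J, ENNReal.ofReal (D E)
      ≤ ∫⁻ E in J, ENNReal.ofReal (D' E) + ENNReal.ofReal |D E - D' E| := by
        refine lintegral_mono fun E => ?_
        rw [← ENNReal.ofReal_add (h0' E) (abs_nonneg _)]
        apply ENNReal.ofReal_le_ofReal
        linarith [le_abs_self (D E - D' E)]
    _ = (∫⁻ E in J, ENNReal.ofReal (D' E)) + ∫⁻ E in J, ENNReal.ofReal |D E - D' E| :=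
        lintegral_add_left hD'.ennreal_ofReal _
    _ ≤ _ := by
        refine add_le_add le_rfl ?_
        exact lintegral_mono_set hJs

theorem mass_sub {μ μ' : Measure ℝ} [IsFiniteMeasure μ] [IsFiniteMeasure μ'] {a b : ℝ}
    {D D' : ℝ → ℝ} (hD : Measurable D) (hD' : Measurable D') (h0 : ∀ E, 0 ≤ D E)
    (h0' : ∀ E, 0 ≤ D' E)
    (h : μ.restrict (Ioo a b)
      = (volume.restrict (Ioo a b)).withDensity fun E => ENNReal.ofReal (D E))
    (h' : μ'.restrict (Ioo a b)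
      = (volume.restrict (Ioo a b)).withDensity fun E => ENNReal.ofReal (D' E))
    {J : Set ℝ} (hJ : MeasurableSet J) (hJs : J ⊆ Ioo a b) :
    ENNReal.ofReal |(μ J).toReal - (μ' J).toReal|
      ≤ ∫⁻ E in Ioo a b, ENNReal.ofReal |D E - D' E| := by
  obtain ⟨R, hR⟩ : ∃ R, R = ∫⁻ E in Ioo a b, ENNReal.ofReal |D E - D' E| := ⟨_, rfl⟩
  have k1 : μ J ≤ μ' J + R := by
    rw [mass_eq h hJ hJs, mass_eq h' hJ hJs, hR]
    exact dens_le hD' h0' hJs
  have k2 : μ' J ≤ μ J + R := by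
    rw [mass_eq h hJ hJs, mass_eq h' hJ hJs, hR]
    simp_rw [abs_sub_comm (D _) (D' _)]
    exact dens_le hD h0 hJs
  rw [← hR]
  rcases eq_or_ne R ⊤ with ht | ht
  · rw [ht]
    exact le_top
  have k3 := ENNReal.toReal_mono (ENNReal.add_ne_top.2 ⟨measure_ne_top _ _, ht⟩) k1
  have k4 := ENNReal.toReal_mono (ENNReal.add_ne_top.2 ⟨measure_ne_top _ _, ht⟩) k2
  rw [ENNReal.toReal_add (measure_ne_top _ _) ht] at k3 k4
  rw [← ENNReal.ofReal_toReal ht]
  apply ENNReal.ofReal_le_ofReal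
  rw [abs_le]
  constructor <;> linarith

theorem amp_sub {μ μ' : Measure ℝ} [IsFiniteMeasure μ] [IsFiniteMeasure μ'] {a b : ℝ}
    {D D' : ℝ → ℝ} (hD : Measurable D) (hD' : Measurable D') (h0 : ∀ E, 0 ≤ D E)
    (h0' : ∀ E, 0 ≤ D' E)
    (h : μ.restrict (Ioo a b)
      = (volume.restrict (Ioo a b)).withDensity fun E => ENNReal.ofReal (D E))
    (h' : μ'.restrict (Ioo a b)
      = (volume.restrict (Ioo a b)).withDensity fun E => ENNReal.ofReal (D' E)) (t : ℝ) :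
    ‖(∫ E in Ioo a b, Complex.exp (-(Complex.I * t * E)) ∂μ)
      - ∫ E in Ioo a b, Complex.exp (-(Complex.I * t * E)) ∂μ'‖ₑ
      ≤ ∫⁻ E in Ioo a b, ENNReal.ofReal |D E - D' E| := by
  have hexp : ∀ E : ℝ, ‖Complex.exp (-(Complex.I * t * E))‖ = 1 := by
    intro E
    rw [Complex.norm_exp]
    simp
  have hint : ∀ (μ : Measure ℝ) [IsFiniteMeasure μ] (D : ℝ → ℝ), Measurable D →
      (∀ E, 0 ≤ D E) → μ.restrict (Ioo a b)
        = (volume.restrict (Ioo a b)).withDensity (fun E => ENNReal.ofReal (D E)) →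
      Integrable (fun E : ℝ => (D E : ℂ) * Complex.exp (-(Complex.I * t * E)))
        (volume.restrict (Ioo a b)) := by
    intro μ _ D hD h0 h
    have hm : Measurable fun E : ℝ => (D E : ℂ) * Complex.exp (-(Complex.I * t * E)) := by
      have : Measurable fun E : ℝ => Complex.exp (-(Complex.I * t * E)) := by fun_prop
      exact (Complex.measurable_ofReal.comp hD).mul this
    refine ⟨hm.aestronglyMeasurable, ?_⟩
    have e1 : ∫⁻ E in Ioo a b, ‖(D E : ℂ) * Complex.exp (-(Complex.I * t * E))‖ₑ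
        = μ (Ioo a b) := by
      rw [mass_eq h measurableSet_Ioo subset_rfl]
      refine lintegral_congr fun E => ?_
      rw [← ofReal_norm, norm_mul, hexp, mul_one, Complex.norm_real, Real.norm_of_nonneg (h0 E)]
    show ∫⁻ E in Ioo a b, ‖(D E : ℂ) * Complex.exp (-(Complex.I * t * E))‖ₑ < ⊤
    rw [e1]
    exact measure_lt_top _ _
  rw [int_eq hD h0 h, int_eq hD' h0' h',
    ← integral_sub (hint μ D hD h0 h) (hint μ' D' hD' h0' h')]
  refine (enorm_integral_le_lintegral_enorm _).trans_eq ?_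
  refine lintegral_congr fun E => ?_
  rw [← ofReal_norm, ← sub_mul, norm_mul, hexp, mul_one, ← Complex.ofReal_sub, Complex.norm_real,
    Real.norm_eq_abs]

theorem lin3 {Ω : Type*} [MeasurableSpace Ω] (P : Measure Ω) [IsProbabilityMeasure P]
    (A B : Ω → ℝ≥0∞) (hA : Measurable A) (hB : Measurable B) (k c : ℝ≥0∞) :
    ∫⁻ ω, k * (A ω + B ω + c) ∂P = k * ((∫⁻ ω, A ω ∂P) + (∫⁻ ω, B ω ∂P) + c) := by
  have h1 : Measurable fun ω => A ω + B ω := hA.add hB
  have h2 : Measurable fun ω => A ω + B ω + c := h1.add measurable_const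
  rw [lintegral_const_mul _ h2, lintegral_add_left h1, lintegral_add_left hA, lintegral_const,
    measure_univ, mul_one]

variable {d : ℕ}

/-- The law of i.i.d. pairs. -/
abbrev PL (d : ℕ) (ρ : Measure (ℝ × ℝ)) : Measure ((Fin d → ℤ) → ℝ × ℝ) :=
  Measure.infinitePi fun _ : Fin d → ℤ => ρ

theorem fst_mp (ρ : Measure (ℝ × ℝ)) [IsProbabilityMeasure ρ]
    [IsProbabilityMeasure (ρ.map Prod.fst)] :
    MeasurePreserving (fun (ω : (Fin d → ℤ) → ℝ × ℝ) y => (ω y).1) (PL d ρ)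
      (Pn (ρ.map Prod.fst) (Fin d → ℤ)) := by
  refine ⟨by fun_prop, ?_⟩
  have h := Measure.infinitePi_map_pi (μ := fun _ : Fin d → ℤ => ρ)
    (f := fun _ => (Prod.fst : ℝ × ℝ → ℝ)) (fun _ => measurable_fst)
  unfold Pn
  exact h

theorem snd_mp (ρ : Measure (ℝ × ℝ)) [IsProbabilityMeasure ρ]
    [IsProbabilityMeasure (ρ.map Prod.snd)] :
    MeasurePreserving (fun (ω : (Fin d → ℤ) → ℝ × ℝ) y => (ω y).2) (PL d ρ)
      (Pn (ρ.map Prod.snd) (Fin d → ℤ)) := by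
  refine ⟨by fun_prop, ?_⟩
  have h := Measure.infinitePi_map_pi (μ := fun _ : Fin d → ℤ => ρ)
    (f := fun _ => (Prod.snd : ℝ × ℝ → ℝ)) (fun _ => measurable_snd)
  unfold Pn
  exact h

theorem near_ae (ρ : Measure (ℝ × ℝ)) [IsProbabilityMeasure ρ] {δ : ℝ}
    (h : ∀ᵐ p ∂ρ, |p.1 - p.2| ≤ δ) :
    ∀ᵐ ω ∂(PL d ρ), ∀ y : Fin d → ℤ, |(ω y).1 - (ω y).2| ≤ δ := by
  rw [ae_all_iff]
  intro y
  exact (measurePreserving_eval_infinitePi (fun _ : Fin d → ℤ => ρ) y).quasiMeasurePreserving.ae h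

/-- the admissible distance -/
def dlt (η₀ : ℝ) (θ : ℕ → ℝ → ℝ) (q : ℕ) (e : ℝ) : ℝ :=
  min η₀ (θ q (e / 3 ^ (q + 1))) ^ 2 * min 1 (e / 3 ^ (q + 1))

theorem dlt_pos {η₀ : ℝ} (h0 : 0 < η₀) {θ : ℕ → ℝ → ℝ} (hθ : ∀ q e, 0 < e → 0 < θ q e) (q : ℕ)
    {e : ℝ} (he : 0 < e) : 0 < dlt η₀ θ q e := by
  have h1 : 0 < e / 3 ^ (q + 1) := by positivity
  have h2 : 0 < min η₀ (θ q (e / 3 ^ (q + 1))) := lt_min h0 (hθ q _ h1)
  have h3 : 0 < min 1 (e / 3 ^ (q + 1)) := lt_min one_pos h1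
  unfold dlt
  positivity

theorem pair {K : C(UnitAddTorus (Fin d), ℝ)} (ρ : Measure (ℝ × ℝ)) [IsProbabilityMeasure ρ]
    [IsProbabilityMeasure (ρ.map Prod.fst)] [IsProbabilityMeasure (ρ.map Prod.snd)]
    {a b η₀ : ℝ} (h0 : 0 < η₀) {θ : ℕ → ℝ → ℝ} (hθ : ∀ q e, 0 < e → 0 < θ q e)
    (D D' : (Fin d → ℤ) → ((Fin d → ℤ) → ℝ) → ℝ → ℝ)
    (hD : ∀ x, Measurable (Function.uncurry (D x)))
    (hD' : ∀ x, Measurable (Function.uncurry (D' x)))
    (h : ∀ (q : ℕ) (e : ℝ), 1 ≤ q → 0 < e → ∀ x : Fin d → ℤ, ∀ z ∈ St a b η₀, z.im ≤ θ q e →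
      ∫⁻ ω, ENNReal.ofReal |(Gr K 1 ω z x x).im / Real.pi - D x ω z.re| ^ q
        ∂(Pn (ρ.map Prod.fst) (Fin d → ℤ)) ≤ ENNReal.ofReal e)
    (h' : ∀ (q : ℕ) (e : ℝ), 1 ≤ q → 0 < e → ∀ x : Fin d → ℤ, ∀ z ∈ St a b η₀, z.im ≤ θ q e →
      ∫⁻ ω, ENNReal.ofReal |(Gr K 1 ω z x x).im / Real.pi - D' x ω z.re| ^ q
        ∂(Pn (ρ.map Prod.snd) (Fin d → ℤ)) ≤ ENNReal.ofReal e)
    (q : ℕ) (hq : 1 ≤ q) (e : ℝ) (he : 0 < e)
    (hρ : ∀ᵐ p ∂ρ, |p.1 - p.2| ≤ dlt η₀ θ q e) (x : Fin d → ℤ) (E : ℝ) (ha : a ≤ E)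
    (hb : E ≤ b) :
    ∫⁻ ω, ENNReal.ofReal |D x (fun y => (ω y).1) E - D' x (fun y => (ω y).2) E| ^ q ∂(PL d ρ)
      ≤ ENNReal.ofReal e := by
  obtain ⟨e', he'⟩ : ∃ e', e' = e / 3 ^ (q + 1) := ⟨_, rfl⟩
  have he'0 : 0 < e' := by rw [he']; positivity
  obtain ⟨η, hη⟩ : ∃ η, η = min η₀ (θ q e') := ⟨_, rfl⟩
  have hη0 : 0 < η := by
    rw [hη]
    exact lt_min h0 (hθ q e' he'0)
  obtain ⟨z, hz⟩ : ∃ z : ℂ, z = ⟨E, η⟩ := ⟨_, rfl⟩
  have hzim : z.im = η := by rw [hz]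
  have hzre : z.re = E := by rw [hz]
  have hz0 : 0 < z.im := by rw [hzim]; exact hη0
  have hzS : z ∈ St a b η₀ := by
    refine ⟨by rw [hzre]; exact ha, by rw [hzre]; exact hb, hz0, ?_⟩
    rw [hzim, hη]
    exact min_le_left _ _
  have hzθ : z.im ≤ θ q e' := by
    rw [hzim, hη]
    exact min_le_right _ _
  have hm1 : 0 < min 1 e' := lt_min one_pos he'0
  have hdl : dlt η₀ θ q e = η ^ 2 * min 1 e' := by
    unfold dlt
    rw [← he', ← hη]
  have hm : ∀ x : Fin d → ℤ, Measurable fun v : (Fin d → ℤ) → ℝ =>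
      (Gr K 1 v z x x).im / Real.pi := fun x =>
    (Complex.measurable_im.comp (Gr_meas K 1 hz0 x x)).div_const _
  have k1 := h q e' hq he'0 x z hzS hzθ
  have k2 := h' q e' hq he'0 x z hzS hzθ
  rw [hzre] at k1 k2
  have hA : Measurable fun v : (Fin d → ℤ) → ℝ =>
      ENNReal.ofReal |(Gr K 1 v z x x).im / Real.pi - D x v E| ^ q :=
    (((hm x).sub (hD x).of_uncurry_right).abs).ennreal_ofReal.pow_const q
  have hB : Measurable fun v : (Fin d → ℤ) → ℝ =>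
      ENNReal.ofReal |(Gr K 1 v z x x).im / Real.pi - D' x v E| ^ q :=
    (((hm x).sub (hD' x).of_uncurry_right).abs).ennreal_ofReal.pow_const q
  rw [← (fst_mp (d := d) ρ).lintegral_comp hA] at k1
  rw [← (snd_mp (d := d) ρ).lintegral_comp hB] at k2
  have hpt : ∀ᵐ ω ∂(PL d ρ),
      ENNReal.ofReal |D x (fun y => (ω y).1) E - D' x (fun y => (ω y).2) E| ^ q
      ≤ 3 ^ q * (ENNReal.ofReal |(Gr K 1 (fun y => (ω y).1) z x x).im / Real.pi
          - D x (fun y => (ω y).1) E| ^ q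
        + ENNReal.ofReal |(Gr K 1 (fun y => (ω y).2) z x x).im / Real.pi
          - D' x (fun y => (ω y).2) E| ^ q + ENNReal.ofReal e') := by
    filter_upwards [near_ae (d := d) ρ hρ] with ω hω
    obtain ⟨A, hA'⟩ : ∃ A, A = |(Gr K 1 (fun y => (ω y).1) z x x).im / Real.pi
        - D x (fun y => (ω y).1) E| := ⟨_, rfl⟩
    obtain ⟨B, hB'⟩ : ∃ B, B = |(Gr K 1 (fun y => (ω y).2) z x x).im / Real.pi
        - D' x (fun y => (ω y).2) E| := ⟨_, rfl⟩
    have hA0 : 0 ≤ A := by rw [hA']; exact abs_nonneg _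
    have hB0 : 0 ≤ B := by rw [hB']; exact abs_nonneg _
    rw [← hA', ← hB']
    have h1 := Gr_sub K (fun y => (ω y).1) (fun y => (ω y).2) hz0
      (dlt_pos h0 hθ q he).le hω x
    have h2 := im_div_le (Gr K 1 (fun y => (ω y).1) z x x) (Gr K 1 (fun y => (ω y).2) z x x)
    have h3 : dlt η₀ θ q e / z.im ^ 2 = min 1 e' := by
      rw [hdl, hzim]
      field_simp
    rw [h3] at h1
    have h4 : |D x (fun y => (ω y).1) E - D' x (fun y => (ω y).2) E| ≤ A + B + min 1 e' := by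
      have e1 : D x (fun y => (ω y).1) E - D' x (fun y => (ω y).2) E
          = -((Gr K 1 (fun y => (ω y).1) z x x).im / Real.pi - D x (fun y => (ω y).1) E)
            + ((Gr K 1 (fun y => (ω y).2) z x x).im / Real.pi - D' x (fun y => (ω y).2) E)
            + ((Gr K 1 (fun y => (ω y).1) z x x).im / Real.pi
              - (Gr K 1 (fun y => (ω y).2) z x x).im / Real.pi) := by ring
      rw [e1]
      refine (abs_add_le _ _).trans ?_
      refine add_le_add ((abs_add_le _ _).trans ?_) (h2.trans h1)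
      rw [abs_neg, ← hA', ← hB']
    calc ENNReal.ofReal |D x (fun y => (ω y).1) E - D' x (fun y => (ω y).2) E| ^ q
        ≤ ENNReal.ofReal (A + B + min 1 e') ^ q :=
          pow_le_pow_left₀ (zero_le) (ENNReal.ofReal_le_ofReal h4) q
      _ = ENNReal.ofReal ((A + B + min 1 e') ^ q) := by
          rw [ENNReal.ofReal_pow (by positivity)]
      _ ≤ ENNReal.ofReal (3 ^ q * (A ^ q + B ^ q + min 1 e' ^ q)) :=
          ENNReal.ofReal_le_ofReal (pow3 _ _ _ hA0 hB0 hm1.le q)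
      _ ≤ ENNReal.ofReal (3 ^ q * (A ^ q + B ^ q + e')) := by
          apply ENNReal.ofReal_le_ofReal
          have h5 : min 1 e' ^ q ≤ e' := by
            calc min 1 e' ^ q ≤ min 1 e' ^ 1 :=
                  pow_le_pow_of_le_one hm1.le (min_le_left _ _) hq
              _ ≤ e' := by rw [pow_one]; exact min_le_right _ _
          gcongr
      _ = 3 ^ q * (ENNReal.ofReal A ^ q + ENNReal.ofReal B ^ q + ENNReal.ofReal e') := by
          rw [ENNReal.ofReal_mul (by positivity), ENNReal.ofReal_add (by positivity) he'0.le,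
            ENNReal.ofReal_add (by positivity) (by positivity), ENNReal.ofReal_pow hA0,
            ENNReal.ofReal_pow hB0, ENNReal.ofReal_pow (by norm_num)]
          norm_num
  have mA : Measurable fun ω : (Fin d → ℤ) → ℝ × ℝ =>
      ENNReal.ofReal |(Gr K 1 (fun y => (ω y).1) z x x).im / Real.pi
        - D x (fun y => (ω y).1) E| ^ q := hA.comp (fst_mp (d := d) ρ).measurable
  have mB : Measurable fun ω : (Fin d → ℤ) → ℝ × ℝ =>
      ENNReal.ofReal |(Gr K 1 (fun y => (ω y).2) z x x).im / Real.pi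
        - D' x (fun y => (ω y).2) E| ^ q := hB.comp (snd_mp (d := d) ρ).measurable
  refine (lintegral_mono_ae hpt).trans ?_
  rw [lin3 (PL d ρ) _ _ mA mB]
  calc 3 ^ q * (_ + _ + ENNReal.ofReal e')
      ≤ 3 ^ q * (ENNReal.ofReal e' + ENNReal.ofReal e' + ENNReal.ofReal e') := by gcongr
    _ = ENNReal.ofReal (3 ^ q * (e' + e' + e')) := by
        rw [ENNReal.ofReal_mul (by positivity), ENNReal.ofReal_add (by positivity) he'0.le,
          ENNReal.ofReal_add he'0.le he'0.le, ENNReal.ofReal_pow (by norm_num)]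
        norm_num
    _ = _ := by
        congr 1
        rw [he', pow_succ]
        field_simp
        ring

end

end Pool.Agent.U281.WG
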