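import Pool.Agent.W465.WAAci

/-!
A finite measure is determined by its Stieltjes transform.
-/

set_option autoImplicit false

namespace Pool.Agent.U281.WG

open MeasureTheory Filter Set
open scoped ENNReal Topology NNReal
open Pool.Agent.W465.WAAci

noncomputable section

theorem ker_int : ∫⁻ s : ℝ, ENNReal.ofReal (1 / (1 + s ^ 2)) = ENNReal.ofReal Real.pi := by
  have h1 : Integrable fun s : ℝ => 1 / (1 + s ^ 2) := by
    simpa [one_div] using integrable_inv_one_add_sq
  rw [← ofReal_integral_eq_lintegral_ofReal h1 (Eventually.of_forall fun s => by positivity)]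
  congr 1
  simp [one_div]

theorem subst_li (g : ℝ → ℝ≥0∞) (t : ℝ) {η : ℝ} (hη : 0 < η) :
    ∫⁻ E : ℝ, g E = ENNReal.ofReal η * ∫⁻ s : ℝ, g (t + η * s) := by
  rw [← lintegral_add_left_eq_self g t]
  have hmm : MeasurableEmbedding fun s : ℝ => η * s :=
    (Homeomorph.mulLeft₀ _ hη.ne').measurableEmbedding
  have e3 := hmm.lintegral_map (μ := volume) (fun s => g (t + s))
  rw [Real.map_volume_mul_left hη.ne', lintegral_smul_measure, smul_eq_mul] at e3
  rw [← e3, ← mul_assoc, ← ENNReal.ofReal_mul hη.le, abs_of_pos (inv_pos.2 hη),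
    mul_inv_cancel₀ hη.ne', ENNReal.ofReal_one, one_mul]

theorem F_test (μ : Measure ℝ) [IsFiniteMeasure μ] (f : BoundedContinuousFunction ℝ ℝ≥0) {η : ℝ}
    (hη : 0 < η) : ∫⁻ E, (f E : ℝ≥0∞) * F μ η E
      = ∫⁻ t, (∫⁻ s : ℝ, (f (t + η * s) : ℝ≥0∞) * ENNReal.ofReal (1 / (1 + s ^ 2))) ∂μ := by
  have hf : Measurable fun E : ℝ => (f E : ℝ≥0∞) := f.continuous.measurable.coe_nnreal_ennreal
  have hPm : Measurable fun q : ℝ × ℝ => ENNReal.ofReal (P η q.1 q.2) :=
    (P_cont hη).measurable.ennreal_ofReal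
  have hj : Measurable (Function.uncurry fun (E t : ℝ) => (f E : ℝ≥0∞) * ENNReal.ofReal (P η t E)) :=
    (hf.comp measurable_fst).mul (hPm.comp measurable_swap)
  calc ∫⁻ E, (f E : ℝ≥0∞) * F μ η E
      = ∫⁻ E, (∫⁻ t, (f E : ℝ≥0∞) * ENNReal.ofReal (P η t E) ∂μ) := by
        refine lintegral_congr fun E => ?_
        unfold F
        rw [lintegral_const_mul]
        exact (P_contt hη E).measurable.ennreal_ofReal
    _ = ∫⁻ t, (∫⁻ E, (f E : ℝ≥0∞) * ENNReal.ofReal (P η t E)) ∂μ :=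
        lintegral_lintegral_swap hj.aemeasurable
    _ = _ := by
        refine lintegral_congr fun t => ?_
        rw [subst_li _ t hη, ← lintegral_const_mul']
        · refine lintegral_congr fun s => ?_
          have h1 : P η t (t + η * s) = η⁻¹ * (1 / (1 + s ^ 2)) := by
            unfold P
            have : (1 + s ^ 2 : ℝ) ≠ 0 := by positivity
            have h2 : (t - (t + η * s)) ^ 2 + η ^ 2 = η ^ 2 * (1 + s ^ 2) := by ring
            rw [h2]
            field_simp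
          rw [h1, ENNReal.ofReal_mul (inv_pos.2 hη).le]
          calc ENNReal.ofReal η * ((f (t + η * s) : ℝ≥0∞) *
                (ENNReal.ofReal η⁻¹ * ENNReal.ofReal (1 / (1 + s ^ 2))))
              = (ENNReal.ofReal η * ENNReal.ofReal η⁻¹) *
                ((f (t + η * s) : ℝ≥0∞) * ENNReal.ofReal (1 / (1 + s ^ 2))) := by ring
            _ = _ := by
                rw [← ENNReal.ofReal_mul hη.le, mul_inv_cancel₀ hη.ne', ENNReal.ofReal_one,
                  one_mul]
        · exact ENNReal.ofReal_ne_top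

theorem F_lim (μ : Measure ℝ) [IsFiniteMeasure μ] (f : BoundedContinuousFunction ℝ ℝ≥0) :
    Tendsto (fun n : ℕ => ∫⁻ E, (f E : ℝ≥0∞) * F μ (1 / ((n : ℝ) + 1)) E) atTop
      (𝓝 (∫⁻ t, (f t : ℝ≥0∞) * ENNReal.ofReal Real.pi ∂μ)) := by
  have hη : ∀ n : ℕ, 0 < 1 / ((n : ℝ) + 1) := fun n => by positivity
  have hηt : Tendsto (fun n : ℕ => 1 / ((n : ℝ) + 1)) atTop (𝓝 0) :=
    tendsto_one_div_add_atTop_nhds_zero_nat
  have hf : Measurable fun E : ℝ => (f E : ℝ≥0∞) := f.continuous.measurable.coe_nnreal_ennreal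
  have hk : Measurable fun s : ℝ => ENNReal.ofReal (1 / (1 + s ^ 2)) := by
    have : Measurable fun s : ℝ => 1 / (1 + s ^ 2) := by fun_prop
    exact this.ennreal_ofReal
  obtain ⟨M, hM⟩ : ∃ M : ℝ≥0, ∀ E, f E ≤ M := by
    obtain ⟨M, hM⟩ := f.bounded
    refine ⟨f 0 + Real.toNNReal M, fun E => ?_⟩
    rw [← NNReal.coe_le_coe, NNReal.coe_add]
    have h1 := hM E 0
    rw [NNReal.dist_eq] at h1
    have h2 := le_abs_self ((f E : ℝ) - f 0)
    have h3 := Real.le_coe_toNNReal M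
    linarith
  simp_rw [fun n : ℕ => F_test μ f (hη n)]
  have hjm : ∀ n : ℕ, Measurable (Function.uncurry fun (t s : ℝ) =>
      (f (t + 1 / ((n : ℝ) + 1) * s) : ℝ≥0∞) * ENNReal.ofReal (1 / (1 + s ^ 2))) := by
    intro n
    have h1 : Measurable fun q : ℝ × ℝ => q.1 + 1 / ((n : ℝ) + 1) * q.2 := by fun_prop
    exact (hf.comp h1).mul (hk.comp measurable_snd)
  refine tendsto_lintegral_of_dominated_convergence
    (fun _ => (M : ℝ≥0∞) * ENNReal.ofReal Real.pi) (fun n => (hjm n).lintegral_prod_right')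
    (fun n => Eventually.of_forall fun t => ?_) ?_ (Eventually.of_forall fun t => ?_)
  · rw [← ker_int, ← lintegral_const_mul _ hk]
    refine lintegral_mono fun s => ?_
    gcongr
    exact_mod_cast hM _
  · rw [lintegral_const]
    exact ENNReal.mul_ne_top (ENNReal.mul_ne_top ENNReal.coe_ne_top ENNReal.ofReal_ne_top)
      (measure_ne_top _ _)
  · have h1 : (f t : ℝ≥0∞) * ENNReal.ofReal Real.pi
        = ∫⁻ s : ℝ, (f t : ℝ≥0∞) * ENNReal.ofReal (1 / (1 + s ^ 2)) := by
      rw [lintegral_const_mul _ hk, ker_int]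
    rw [h1]
    refine tendsto_lintegral_of_dominated_convergence
      (fun s => (M : ℝ≥0∞) * ENNReal.ofReal (1 / (1 + s ^ 2)))
      (fun n => (hjm n).of_uncurry_left) (fun n => Eventually.of_forall fun s => ?_) ?_
      (Eventually.of_forall fun s => ?_)
    · show (f (t + 1 / ((n : ℝ) + 1) * s) : ℝ≥0∞) * ENNReal.ofReal (1 / (1 + s ^ 2))
        ≤ (M : ℝ≥0∞) * ENNReal.ofReal (1 / (1 + s ^ 2))
      gcongr
      exact_mod_cast hM _
    · rw [lintegral_const_mul _ hk, ker_int]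
      exact ENNReal.mul_ne_top ENNReal.coe_ne_top ENNReal.ofReal_ne_top
    · refine ENNReal.Tendsto.mul_const ?_ (Or.inr ENNReal.ofReal_ne_top)
      rw [ENNReal.tendsto_coe]
      have h2 : Tendsto (fun n : ℕ => t + 1 / ((n : ℝ) + 1) * s) atTop (𝓝 t) := by
        have h3 := (hηt.mul_const s).const_add t
        rwa [zero_mul, add_zero] at h3
      exact (f.continuous.tendsto t).comp h2

/-- Finite measures with the same Stieltjes transform are equal. -/
theorem uni (μ μ' : Measure ℝ) [IsFiniteMeasure μ] [IsFiniteMeasure μ']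
    (h : ∀ z : ℂ, 0 < z.im → ∫ E : ℝ, 1 / ((E : ℂ) - z) ∂μ = ∫ E : ℝ, 1 / ((E : ℂ) - z) ∂μ') :
    μ = μ' := by
  refine ext_of_forall_lintegral_eq_of_IsFiniteMeasure fun f => ?_
  have hF : ∀ n : ℕ, ∫⁻ E, (f E : ℝ≥0∞) * F μ (1 / ((n : ℝ) + 1)) E
      = ∫⁻ E, (f E : ℝ≥0∞) * F μ' (1 / ((n : ℝ) + 1)) E := by
    intro n
    refine lintegral_congr fun E => ?_
    have hη : 0 < 1 / ((n : ℝ) + 1) := by positivity
    rw [← F_eq μ hη, ← F_eq μ' hη, ← im_eq μ hη, ← im_eq μ' hη, h ⟨E, _⟩ hη]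
  have h1 := F_lim μ f
  simp_rw [hF] at h1
  have h2 := tendsto_nhds_unique h1 (F_lim μ' f)
  have hf : Measurable fun E : ℝ => (f E : ℝ≥0∞) := f.continuous.measurable.coe_nnreal_ennreal
  rw [lintegral_mul_const _ hf, lintegral_mul_const _ hf] at h2
  exact (ENNReal.mul_left_inj (by simpa using Real.pi_pos) ENNReal.ofReal_ne_top).1 h2

end

end Pool.Agent.U281.WG
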