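import Pool.Agent.U281.WG.Lev
import Pool.Agent.U281.WG.Uni

/-!
Masses of sets, return amplitudes, and the mean density of states.
-/

set_option autoImplicit false

namespace Pool.Agent.U281.WG

open MeasureTheory Filter Set
open scoped ENNReal Topology

noncomputable section

theorem mass_eq {μ : Measure ℝ} {a b : ℝ} {g : ℝ → ℝ≥0∞}
    (h : μ.restrict (Ioo a b) = (volume.restrict (Ioo a b)).withDensity g) {J : Set ℝ}
    (hJ : MeasurableSet J) (hJs : J ⊆ Ioo a b) : μ J = ∫⁻ E in J, g E := by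
  have h1 : μ J = μ.restrict (Ioo a b) J := by
    rw [Measure.restrict_apply hJ, inter_eq_left.2 hJs]
  rw [h1, h, withDensity_apply _ hJ, Measure.restrict_restrict hJ, inter_eq_left.2 hJs]

theorem int_eq {μ : Measure ℝ} {a b : ℝ} {D : ℝ → ℝ} (hD : Measurable D) (h0 : ∀ E, 0 ≤ D E)
    (h : μ.restrict (Ioo a b)
      = (volume.restrict (Ioo a b)).withDensity fun E => ENNReal.ofReal (D E)) (f : ℝ → ℂ) :
    ∫ E in Ioo a b, f E ∂μ = ∫ E in Ioo a b, (D E : ℂ) * f E := by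
  rw [h, integral_withDensity_eq_integral_toReal_smul₀ hD.aemeasurable.ennreal_ofReal
    (Eventually.of_forall fun _ => ENNReal.ofReal_lt_top)]
  refine integral_congr_ae (Eventually.of_forall fun E => ?_)
  simp only [ENNReal.toReal_ofReal (h0 E), Complex.real_smul]

variable {Ω : Type*} [MeasurableSpace Ω]

/-- moments of the time integral of the squared return amplitude -/
theorem ret (P : Measure Ω) [IsProbabilityMeasure P] (D : Ω → ℝ → ℝ)
    (hD : Measurable (Function.uncurry D)) (h0 : ∀ ω E, 0 ≤ D ω E) {a b : ℝ} (hab : a < b)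
    (m : Ω → Measure ℝ) (hm : ∀ᵐ ω ∂P, (m ω).restrict (Ioo a b)
      = (volume.restrict (Ioo a b)).withDensity fun E => ENNReal.ofReal (D ω E))
    (q : ℕ) (hq : 1 ≤ q) (C : ℝ)
    (h : ∀ E, a ≤ E → E ≤ b → ∫⁻ ω, ENNReal.ofReal (D ω E) ^ (2 * q) ∂P ≤ ENNReal.ofReal C) :
    ∫⁻ ω, (∫⁻ t : ℝ, ‖∫ E in Ioo a b, Complex.exp (-(Complex.I * t * E)) ∂(m ω)‖ₑ ^ 2) ^ q ∂P
      ≤ ENNReal.ofReal ((2 * Real.pi * (b - a)) ^ q * C) := by
  have hpi := Real.pi_pos
  have hD2 : Measurable (Function.uncurry fun ω E => ENNReal.ofReal (D ω E) ^ 2) :=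
    hD.ennreal_ofReal.pow_const 2
  have hI : Measurable fun ω => ∫⁻ E in Ioo a b, ENNReal.ofReal (D ω E) ^ 2 :=
    hD2.lintegral_prod_right'
  have h1 := up_set P (fun ω E => ENNReal.ofReal (D ω E) ^ 2) hD2 (a := a) (b := b) q hq
    (ENNReal.ofReal C) (fun E ha hb => by
      have := h E ha hb
      simpa only [pow_mul] using this) (Ioo a b) measurableSet_Ioo Ioo_subset_Icc_self
  have h2 : ENNReal.ofReal C * volume (Ioo a b) ^ q ≠ ⊤ :=
    ENNReal.mul_ne_top ENNReal.ofReal_ne_top (ENNReal.pow_ne_top measure_Ioo_lt_top.ne)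
  have h3 : ∀ᵐ ω ∂P, (∫⁻ E in Ioo a b, ENNReal.ofReal (D ω E) ^ 2) ≠ ⊤ := by
    have h4 : ∀ᵐ ω ∂P, (∫⁻ E in Ioo a b, ENNReal.ofReal (D ω E) ^ 2) ^ q < ⊤ :=
      ae_lt_top (hI.pow_const q) (ne_top_of_le_ne_top h2 h1)
    filter_upwards [h4] with ω hω ht
    rw [ht, ENNReal.top_pow (by omega)] at hω
    exact lt_irrefl _ hω
  calc ∫⁻ ω, (∫⁻ t : ℝ, ‖∫ E in Ioo a b, Complex.exp (-(Complex.I * t * E)) ∂(m ω)‖ₑ ^ 2) ^ q ∂P
      = ∫⁻ ω, ENNReal.ofReal (2 * Real.pi) ^ q *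
          (∫⁻ E in Ioo a b, ENNReal.ofReal (D ω E) ^ 2) ^ q ∂P := by
        refine lintegral_congr_ae ?_
        filter_upwards [hm, h3] with ω hω hω3
        rw [← mul_pow, ← planch_int a b (D ω) hD.of_uncurry_left (h0 ω) hω3]
        congr 2
        funext t
        rw [int_eq hD.of_uncurry_left (h0 ω) hω]
    _ = ENNReal.ofReal (2 * Real.pi) ^ q *
          ∫⁻ ω, (∫⁻ E in Ioo a b, ENNReal.ofReal (D ω E) ^ 2) ^ q ∂P :=
        lintegral_const_mul _ (hI.pow_const q)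
    _ ≤ ENNReal.ofReal (2 * Real.pi) ^ q * (ENNReal.ofReal C * volume (Ioo a b) ^ q) := by
        gcongr
    _ = _ := by
        have hba : 0 < b - a := by linarith
        have e1 : ENNReal.ofReal ((2 * Real.pi * (b - a)) ^ q * C)
            = (ENNReal.ofReal (2 * Real.pi) * ENNReal.ofReal (b - a)) ^ q * ENNReal.ofReal C := by
          rw [ENNReal.ofReal_mul (by positivity), ENNReal.ofReal_pow (by positivity),
            ENNReal.ofReal_mul (by positivity : (0 : ℝ) ≤ 2 * Real.pi)]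
        rw [Real.volume_Ioo, e1, mul_pow]
        ring

/-- the mean density -/
theorem mean_dens (P : Measure Ω) [IsProbabilityMeasure P] (D : Ω → ℝ → ℝ)
    (hD : Measurable (Function.uncurry D)) (n : ℝ → ℝ≥0∞) {a b : ℝ}
    (m : Ω → Measure ℝ) (hm : ∀ᵐ ω ∂P, (m ω).restrict (Ioo a b)
      = (volume.restrict (Ioo a b)).withDensity fun E => ENNReal.ofReal (D ω E))
    (hn : ∀ E, a ≤ E → E ≤ b → ∫⁻ ω, ENNReal.ofReal (D ω E) ∂P = n E)
    (J : Set ℝ) (hJ : MeasurableSet J) (hJs : J ⊆ Ioo a b) :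
    ∫⁻ ω, m ω J ∂P = ∫⁻ E in J, n E := by
  calc ∫⁻ ω, m ω J ∂P = ∫⁻ ω, (∫⁻ E in J, ENNReal.ofReal (D ω E)) ∂P := by
        refine lintegral_congr_ae ?_
        filter_upwards [hm] with ω hω
        exact mass_eq hω hJ hJs
    _ = ∫⁻ E in J, (∫⁻ ω, ENNReal.ofReal (D ω E) ∂P) :=
        lintegral_lintegral_swap hD.ennreal_ofReal.aemeasurable
    _ = _ := setLIntegral_congr_fun hJ fun E hE => hn E (hJs hE).1.le (hJs hE).2.le

end

end Pool.Agent.U281.WG
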