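import Pool.Agent.U281.WG.Jen
import Pool.Agent.Helper625.Planch

/-!
Consequences of moment bounds for random densities: masses of sets, Fourier transform.
-/

set_option autoImplicit false

namespace Pool.Agent.U281.WG

open MeasureTheory Filter Set
open scoped ENNReal Topology FourierTransform

noncomputable section

variable {Ω : Type*} [MeasurableSpace Ω]

/-- moments of the mass of a set -/
theorem up_set (P : Measure Ω) [IsProbabilityMeasure P] (D : Ω → ℝ → ℝ≥0∞)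
    (hD : Measurable (Function.uncurry D)) {a b : ℝ} (q : ℕ) (hq : 1 ≤ q) (C : ℝ≥0∞)
    (h : ∀ E, a ≤ E → E ≤ b → ∫⁻ ω, D ω E ^ q ∂P ≤ C) (J : Set ℝ) (hJ : MeasurableSet J)
    (hJs : J ⊆ Icc a b) : ∫⁻ ω, (∫⁻ E in J, D ω E) ^ q ∂P ≤ C * volume J ^ q := by
  have hv : volume J ≠ ⊤ := ((measure_mono hJs).trans_lt measure_Icc_lt_top).ne
  have hDq : Measurable (Function.uncurry fun ω E => D ω E ^ q) := hD.pow_const q
  have hDi : Measurable fun ω => ∫⁻ E in J, D ω E ^ q := hDq.lintegral_prod_right'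
  calc ∫⁻ ω, (∫⁻ E in J, D ω E) ^ q ∂P
      ≤ ∫⁻ ω, volume J ^ (q - 1) * (∫⁻ E in J, D ω E ^ q) ∂P := by
        refine lintegral_mono fun ω => ?_
        have := jen_up (volume.restrict J) (by rwa [Measure.restrict_apply_univ]) (D ω)
          hD.of_uncurry_left q hq
        rwa [Measure.restrict_apply_univ] at this
    _ = volume J ^ (q - 1) * ∫⁻ E in J, (∫⁻ ω, D ω E ^ q ∂P) := by
        rw [lintegral_const_mul _ hDi, lintegral_lintegral_swap
          hDq.aemeasurable]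
    _ ≤ volume J ^ (q - 1) * ∫⁻ _ in J, C := by
        gcongr _ * ?_
        exact setLIntegral_mono' hJ fun E hE => h E (hJs hE).1 (hJs hE).2
    _ = C * volume J ^ q := by
        rw [lintegral_const, Measure.restrict_apply_univ]
        obtain ⟨m, rfl⟩ : ∃ m, q = m + 1 := ⟨q - 1, by omega⟩
        rw [Nat.add_sub_cancel, pow_succ]
        ring

/-- negative moments of the mass of a set -/
theorem low_set (P : Measure Ω) [IsProbabilityMeasure P] (D : Ω → ℝ → ℝ≥0∞)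
    (hD : Measurable (Function.uncurry D)) (w : Ω → ℝ≥0∞) (hw : Measurable w)
    {a b : ℝ} (q : ℕ) (hq : 1 ≤ q) (C : ℝ≥0∞)
    (h : ∀ E, a ≤ E → E ≤ b → ∫⁻ ω, (w ω * D ω E)⁻¹ ^ q ∂P ≤ C) (J : Set ℝ)
    (hJ : MeasurableSet J) (hJs : J ⊆ Icc a b) (hJ0 : 0 < volume J) :
    ∫⁻ ω, (w ω * ∫⁻ E in J, D ω E)⁻¹ ^ q ∂P ≤ C * (volume J)⁻¹ ^ q := by
  have hv : volume J ≠ ⊤ := ((measure_mono hJs).trans_lt measure_Icc_lt_top).ne
  have hwD : Measurable (Function.uncurry fun ω E => w ω * D ω E) :=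
    (hw.comp measurable_fst).mul hD
  have hDq : Measurable (Function.uncurry fun ω E => (w ω * D ω E)⁻¹ ^ q) :=
    hwD.inv.pow_const q
  have hDi : Measurable fun ω => ∫⁻ E in J, (w ω * D ω E)⁻¹ ^ q := hDq.lintegral_prod_right'
  calc ∫⁻ ω, (w ω * ∫⁻ E in J, D ω E)⁻¹ ^ q ∂P
      ≤ ∫⁻ ω, (volume J)⁻¹ ^ (q + 1) * (∫⁻ E in J, (w ω * D ω E)⁻¹ ^ q) ∂P := by
        refine lintegral_mono fun ω => ?_
        have := jen_low (volume.restrict J) (by rwa [Measure.restrict_apply_univ])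
          (by rw [Measure.restrict_apply_univ]; exact hJ0.ne') (fun E => w ω * D ω E)
          hwD.of_uncurry_left q hq
        rw [Measure.restrict_apply_univ, lintegral_const_mul _ hD.of_uncurry_left] at this
        exact this
    _ = (volume J)⁻¹ ^ (q + 1) * ∫⁻ E in J, (∫⁻ ω, (w ω * D ω E)⁻¹ ^ q ∂P) := by
        rw [lintegral_const_mul _ hDi, lintegral_lintegral_swap
          hDq.aemeasurable]
    _ ≤ (volume J)⁻¹ ^ (q + 1) * ∫⁻ _ in J, C := by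
        gcongr _ * ?_
        exact setLIntegral_mono' hJ fun E hE => h E (hJs hE).1 (hJs hE).2
    _ = C * (volume J)⁻¹ ^ q := by
        rw [lintegral_const, Measure.restrict_apply_univ, pow_succ]
        calc (volume J)⁻¹ ^ q * (volume J)⁻¹ * (C * volume J)
            = C * (volume J)⁻¹ ^ q * ((volume J)⁻¹ * volume J) := by ring
          _ = _ := by rw [ENNReal.inv_mul_cancel hJ0.ne' hv, mul_one]

/-- Plancherel for a density on an interval -/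
theorem planch_int (a b : ℝ) (D : ℝ → ℝ) (hD : Measurable D) (h0 : ∀ E, 0 ≤ D E)
    (h1 : ∫⁻ E in Ioo a b, ENNReal.ofReal (D E) ^ 2 ≠ ⊤) :
    ∫⁻ t : ℝ, ‖∫ E in Ioo a b, (D E : ℂ) * Complex.exp (-(Complex.I * t * E))‖ₑ ^ 2
      = ENNReal.ofReal (2 * Real.pi) * ∫⁻ E in Ioo a b, ENNReal.ofReal (D E) ^ 2 := by
  obtain ⟨f, hf⟩ : ∃ f : ℝ → ℂ, f = (Ioo a b).indicator fun E => (D E : ℂ) := ⟨_, rfl⟩
  have hfm : Measurable f := by
    rw [hf]
    exact (Complex.measurable_ofReal.comp hD).indicator measurableSet_Ioo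
  have hn : ∀ E : ℝ, ‖((D E : ℝ) : ℂ)‖ₑ = ENNReal.ofReal (D E) := by
    intro E
    rw [← ofReal_norm, Complex.norm_real, Real.norm_of_nonneg (h0 E)]
  have hf2 : ∫⁻ E, ‖f E‖ₑ ^ 2 = ∫⁻ E in Ioo a b, ENNReal.ofReal (D E) ^ 2 := by
    rw [← lintegral_indicator measurableSet_Ioo]
    congr 1
    funext E
    rw [hf]
    by_cases hE : E ∈ Ioo a b
    · rw [indicator_of_mem hE, indicator_of_mem hE, hn]
    · rw [indicator_of_notMem hE, indicator_of_notMem hE]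
      simp
  have hL2 : MemLp f 2 := by
    refine ⟨hfm.aestronglyMeasurable, ?_⟩
    rw [eLpNorm_eq_lintegral_rpow_enorm_toReal (by norm_num) (by norm_num)]
    have h3 : ∫⁻ x, ‖f x‖ₑ ^ (2 : ℝ≥0∞).toReal = ∫⁻ E, ‖f E‖ₑ ^ 2 := by
      congr 1
      funext x
      rw [← ENNReal.rpow_natCast]
      norm_num
    rw [h3, hf2]
    exact ENNReal.rpow_lt_top_of_nonneg (by norm_num) h1
  have hInt : Integrable f := by
    have h4 : MemLp f 2 (volume.restrict (Ioo a b)) := hL2.restrict _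
    have h5 : Integrable f (volume.restrict (Ioo a b)) :=
      h4.integrable (by norm_num)
    have h6 : IntegrableOn f (Ioo a b) := h5
    rw [hf] at h6 ⊢
    rw [integrable_indicator_iff measurableSet_Ioo]
    rw [integrableOn_indicator_iff measurableSet_Ioo, inter_self] at h6
    exact h6
  obtain ⟨h7, h8⟩ := Pool.Agent.Helper625.Planch.plancherel f hInt hL2
  have hF : ∀ t : ℝ, ∫ E in Ioo a b, (D E : ℂ) * Complex.exp (-(Complex.I * t * E))
      = 𝓕 f (t * (2 * Real.pi)⁻¹) := by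
    intro t
    rw [Real.fourier_real_eq_integral_exp_smul, ← integral_indicator measurableSet_Ioo]
    congr 1
    funext E
    rw [hf]
    by_cases hE : E ∈ Ioo a b
    · rw [indicator_of_mem hE, indicator_of_mem hE, smul_eq_mul, mul_comm]
      congr 2
      have : (Real.pi : ℂ) ≠ 0 := by exact_mod_cast Real.pi_ne_zero
      push_cast
      field_simp
    · rw [indicator_of_notMem hE, indicator_of_notMem hE, smul_zero]
  have e1 : ∫⁻ t : ℝ, ‖∫ E in Ioo a b, (D E : ℂ) * Complex.exp (-(Complex.I * t * E))‖ₑ ^ 2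
      = ∫⁻ t : ℝ, ‖𝓕 f (t * (2 * Real.pi)⁻¹)‖ₑ ^ 2 := by
    congr 1
    funext t
    rw [hF t]
  have hpi : (2 * Real.pi)⁻¹ ≠ 0 := inv_ne_zero (by positivity)
  have e2 : ∫⁻ t : ℝ, ‖𝓕 f (t * (2 * Real.pi)⁻¹)‖ₑ ^ 2
      = ENNReal.ofReal (2 * Real.pi) * ∫⁻ t : ℝ, ‖𝓕 f t‖ₑ ^ 2 := by
    have hmap := Real.map_volume_mul_right hpi
    have hmm : MeasurableEmbedding fun t : ℝ => t * (2 * Real.pi)⁻¹ :=
      (Homeomorph.mulRight₀ _ hpi).measurableEmbedding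
    have e3 := hmm.lintegral_map (μ := volume) (fun t => ‖𝓕 f t‖ₑ ^ 2)
    rw [hmap, lintegral_smul_measure] at e3
    rw [← e3]
    rw [smul_eq_mul, inv_inv, abs_of_pos (by positivity)]
  have e3 : ∫⁻ t : ℝ, ‖𝓕 f t‖ₑ ^ 2 = ∫⁻ E, ‖f E‖ₑ ^ 2 := by
    have h9 : ∀ g : ℝ → ℂ, MemLp g 2 → ∫⁻ t, ‖g t‖ₑ ^ 2 = ENNReal.ofReal (∫ t, ‖g t‖ ^ 2) := by
      intro g hg
      have hgi : Integrable fun t => ‖g t‖ ^ 2 := hg.norm.integrable_sq
      rw [ofReal_integral_eq_lintegral_ofReal hgi (Eventually.of_forall fun t => by positivity)]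
      congr 1
      funext t
      rw [ENNReal.ofReal_pow (norm_nonneg _), ofReal_norm]
    rw [h9 _ h7, h9 _ hL2, h8]
  rw [e1, e2, e3, hf2]

/-- lower bound of a mean from a negative moment -/
theorem mean_low (P : Measure Ω) [IsProbabilityMeasure P] (X : Ω → ℝ≥0∞) (hX : Measurable X)
    (w : Ω → ℝ≥0∞) (hw : Measurable w) (M C : ℝ) (hM : 0 < M) (hC : 0 < C)
    (h : ∫⁻ ω, (w ω * X ω)⁻¹ ^ 1 ∂P ≤ ENNReal.ofReal C)
    (hA : 2⁻¹ ≤ P {ω | w ω ≤ ENNReal.ofReal M}) :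
    ENNReal.ofReal (1 / (4 * M * C)) ≤ ∫⁻ ω, X ω ∂P := by
  obtain ⟨A, hAd⟩ : ∃ A, A = {ω | w ω ≤ ENNReal.ofReal M} := ⟨_, rfl⟩
  have hAm : MeasurableSet A := by
    rw [hAd]
    exact measurableSet_le hw measurable_const
  obtain ⟨s, hs⟩ : ∃ s, s = ENNReal.ofReal (2 * C) := ⟨_, rfl⟩
  have hs0 : s ≠ 0 := by
    rw [hs]
    simpa using hC
  have hst : s ≠ ⊤ := by
    rw [hs]
    exact ENNReal.ofReal_ne_top
  -- pointwise
  have h1 : ∀ ω ∈ A, (2 : ℝ≥0∞) ≤ s⁻¹ * (w ω * X ω)⁻¹ ^ 1 + s * (ENNReal.ofReal M * X ω) := by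
    intro ω hω
    have h2 := tan_low 1 (s * (w ω * X ω))
    have h3 : (s * (w ω * X ω))⁻¹ = s⁻¹ * (w ω * X ω)⁻¹ :=
      ENNReal.mul_inv (Or.inl hs0) (Or.inl hst)
    rw [h3, pow_one] at h2
    have h4 : w ω ≤ ENNReal.ofReal M := by
      rw [hAd] at hω
      exact hω
    calc (2 : ℝ≥0∞) = 1 + ((1 : ℕ) : ℝ≥0∞) := by norm_num
      _ ≤ s⁻¹ * (w ω * X ω)⁻¹ + ((1 : ℕ) : ℝ≥0∞) * (s * (w ω * X ω)) := h2
      _ ≤ s⁻¹ * (w ω * X ω)⁻¹ ^ 1 + s * (ENNReal.ofReal M * X ω) := by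
          rw [Nat.cast_one, one_mul, pow_one]
          gcongr
  have hwX : Measurable fun ω => (w ω * X ω)⁻¹ ^ 1 := (hw.mul hX).inv.pow_const 1
  have h5 : (2 : ℝ≥0∞) * P A ≤ s⁻¹ * ENNReal.ofReal C + s * (ENNReal.ofReal M * ∫⁻ ω, X ω ∂P) := by
    calc (2 : ℝ≥0∞) * P A = ∫⁻ _ in A, 2 ∂P := by
          rw [lintegral_const, Measure.restrict_apply_univ]
      _ ≤ ∫⁻ ω in A, s⁻¹ * (w ω * X ω)⁻¹ ^ 1 + s * (ENNReal.ofReal M * X ω) ∂P :=
          setLIntegral_mono' hAm h1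
      _ ≤ ∫⁻ ω, s⁻¹ * (w ω * X ω)⁻¹ ^ 1 + s * (ENNReal.ofReal M * X ω) ∂P :=
          setLIntegral_le_lintegral _ _
      _ = s⁻¹ * ∫⁻ ω, (w ω * X ω)⁻¹ ^ 1 ∂P + s * (ENNReal.ofReal M * ∫⁻ ω, X ω ∂P) := by
          rw [lintegral_add_right _ ((hX.const_mul _).const_mul _), lintegral_const_mul _ hwX,
            lintegral_const_mul _ (hX.const_mul _), lintegral_const_mul _ hX]
      _ ≤ _ := by gcongr
  rcases eq_or_ne (∫⁻ ω, X ω ∂P) ⊤ with ht | ht
  · rw [ht]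
    exact le_top
  obtain ⟨y, hy⟩ : ∃ y, y = (∫⁻ ω, X ω ∂P).toReal := ⟨_, rfl⟩
  have hy0 : 0 ≤ y := by rw [hy]; exact ENNReal.toReal_nonneg
  have hyI : ∫⁻ ω, X ω ∂P = ENNReal.ofReal y := by
    rw [hy, ENNReal.ofReal_toReal ht]
  rw [hyI] at h5 ⊢
  have h6 : (1 : ℝ≥0∞) ≤ 2 * P A := by
    rw [hAd]
    calc (1 : ℝ≥0∞) = 2 * 2⁻¹ := (ENNReal.mul_inv_cancel (by norm_num) (by norm_num)).symm
      _ ≤ _ := by gcongr
  have h7 : s⁻¹ * ENNReal.ofReal C + s * (ENNReal.ofReal M * ENNReal.ofReal y)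
      = ENNReal.ofReal ((2 * C)⁻¹ * C + 2 * C * (M * y)) := by
    rw [ENNReal.ofReal_add (by positivity) (by positivity), ENNReal.ofReal_mul (by positivity),
      ENNReal.ofReal_mul (by positivity : (0 : ℝ) ≤ 2 * C), ENNReal.ofReal_mul hM.le,
      ENNReal.ofReal_inv_of_pos (by positivity), hs]
  rw [h7] at h5
  have h8 := h6.trans h5
  rw [← ENNReal.ofReal_one, ENNReal.ofReal_le_ofReal_iff (by positivity)] at h8
  have h9 : (2 * C)⁻¹ * C = 1 / 2 := by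
    field_simp
  rw [h9] at h8
  apply ENNReal.ofReal_le_ofReal
  rw [div_le_iff₀ (by positivity)]
  linarith

end

end Pool.Agent.U281.WG
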