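import Mathlib

/-!
Inequalities of Jensen type for `lintegral`, negative moments from small value bounds.
-/

set_option autoImplicit false

namespace Pool.Agent.U281.WG

open MeasureTheory Filter Set
open scoped ENNReal Topology

noncomputable section

/-- tangent of `r ^ q` -/
theorem tan_up (q : ℕ) (hq : 1 ≤ q) (r : ℝ≥0∞) : (q : ℝ≥0∞) * r ≤ r ^ q + ((q - 1 : ℕ) : ℝ≥0∞) := by
  induction r using ENNReal.recTopCoe with
  | top => simp [ENNReal.top_pow (by omega : q ≠ 0)]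
  | coe r =>
    obtain ⟨m, rfl⟩ : ∃ m, q = m + 1 := ⟨q - 1, by omega⟩
    have h : ((m + 1 : ℕ) : NNReal) * r ≤ r ^ (m + 1) + (m : NNReal) := by
      rw [← NNReal.coe_le_coe]
      push_cast
      have h1 := one_add_mul_sub_le_pow (a := (r : ℝ)) (by linarith [r.coe_nonneg]) (m + 1)
      push_cast at h1
      linarith
    rw [Nat.add_sub_cancel]
    exact_mod_cast h

/-- tangent of `r ^ (-q)` -/
theorem tan_low (q : ℕ) (r : ℝ≥0∞) : (1 + q : ℝ≥0∞) ≤ (r⁻¹) ^ q + q * r := by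
  rcases Nat.eq_zero_or_pos q with hq | hq
  · subst hq; simp
  rcases eq_or_ne r 0 with h0 | h0
  · subst h0
    simp [ENNReal.top_pow hq.ne']
  rcases eq_or_ne r ⊤ with ht | ht
  · subst ht
    have : (q : ℝ≥0∞) ≠ 0 := by exact_mod_cast hq.ne'
    simp [ENNReal.mul_top this]
  · lift r to NNReal using ht
    have hr : 0 < r := by
      rw [pos_iff_ne_zero]
      exact_mod_cast h0
    have h : (1 + q : NNReal) ≤ (r⁻¹) ^ q + q * r := by
      rw [← NNReal.coe_le_coe]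
      push_cast
      have hr' : (0 : ℝ) < r := by exact_mod_cast hr
      have h1 := one_add_mul_sub_le_pow (a := ((r : ℝ)⁻¹)) (by
        have : (0 : ℝ) < (r : ℝ)⁻¹ := inv_pos.2 hr'
        linarith) q
      have h2 : 2 ≤ (r : ℝ)⁻¹ + r := by
        have h3 : (r : ℝ)⁻¹ * r = 1 := inv_mul_cancel₀ hr'.ne'
        nlinarith [sq_nonneg ((r : ℝ)⁻¹ - r), sq_nonneg ((r : ℝ)⁻¹ - 1), inv_pos.2 hr']
      have hq' : (0 : ℝ) ≤ q := Nat.cast_nonneg q
      nlinarith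
    rw [← ENNReal.coe_inv hr.ne']
    exact_mod_cast h

variable {α : Type*} [MeasurableSpace α]

/-- `(∫ X) ^ q ≤ M ^ (q - 1) ∫ X ^ q` -/
theorem jen_up (m : Measure α) (hM : m univ ≠ ⊤) (X : α → ℝ≥0∞) (hX : Measurable X)
    (q : ℕ) (hq : 1 ≤ q) : (∫⁻ a, X a ∂m) ^ q ≤ m univ ^ (q - 1) * ∫⁻ a, X a ^ q ∂m := by
  rcases eq_or_ne (∫⁻ a, X a ∂m) 0 with h0 | h0
  · rw [h0, zero_pow (by omega)]
    exact zero_le
  have hM0 : m univ ≠ 0 := by
    intro h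
    apply h0
    rw [Measure.measure_univ_eq_zero.1 h]
    simp
  have hqi : (q : ℝ≥0∞) ≠ 0 := by
    have : q ≠ 0 := by omega
    exact_mod_cast this
  have key : ∀ s : ℝ≥0∞, s ≠ 0 → s ≠ ⊤ → (q : ℝ≥0∞) * (s⁻¹ * ∫⁻ a, X a ∂m) ≤
      (s⁻¹) ^ q * ∫⁻ a, X a ^ q ∂m + ((q - 1 : ℕ) : ℝ≥0∞) * m univ := by
    intro s hs hst
    have h1 : ∀ a, (q : ℝ≥0∞) * (s⁻¹ * X a) ≤ (s⁻¹) ^ q * X a ^ q + ((q - 1 : ℕ) : ℝ≥0∞) := by
      intro a
      have := tan_up q hq (s⁻¹ * X a)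
      rwa [mul_pow] at this
    calc (q : ℝ≥0∞) * (s⁻¹ * ∫⁻ a, X a ∂m) = ∫⁻ a, (q : ℝ≥0∞) * (s⁻¹ * X a) ∂m := by
          rw [lintegral_const_mul _ (hX.const_mul _), lintegral_const_mul _ hX]
      _ ≤ ∫⁻ a, (s⁻¹) ^ q * X a ^ q + ((q - 1 : ℕ) : ℝ≥0∞) ∂m := lintegral_mono h1
      _ = _ := by
          rw [lintegral_add_right _ measurable_const, lintegral_const_mul _ (hX.pow_const q),
            lintegral_const]
  rcases eq_or_ne (∫⁻ a, X a ∂m) ⊤ with ht | ht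
  · have h1 := key 1 one_ne_zero ENNReal.one_ne_top
    rw [inv_one, one_mul, one_pow, one_mul, ht, ENNReal.mul_top hqi, top_le_iff] at h1
    have h2 : ∫⁻ a, X a ^ q ∂m = ⊤ := by
      by_contra h
      exact (ENNReal.add_ne_top.2 ⟨h, ENNReal.mul_ne_top (ENNReal.natCast_ne_top _) hM⟩) h1
    rw [h2, ENNReal.mul_top (pow_ne_zero _ hM0)]
    exact le_top
  · obtain ⟨s, hs⟩ : ∃ s, s = (∫⁻ a, X a ∂m) / m univ := ⟨_, rfl⟩
    have hs0 : s ≠ 0 := by
      rw [hs]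
      exact (ENNReal.div_pos h0 hM).ne'
    have hst : s ≠ ⊤ := by
      rw [hs]
      exact ENNReal.div_ne_top ht hM0
    have hI : ∫⁻ a, X a ∂m = s * m univ := by
      rw [hs, ENNReal.div_mul_cancel hM0 hM]
    have h1 := key s hs0 hst
    have e1 : s⁻¹ * ∫⁻ a, X a ∂m = m univ := by
      rw [hI, ← mul_assoc, ENNReal.inv_mul_cancel hs0 hst, one_mul]
    rw [e1] at h1
    have e2 : (q : ℝ≥0∞) * m univ = m univ + ((q - 1 : ℕ) : ℝ≥0∞) * m univ := by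
      have : (q : ℝ≥0∞) = 1 + ((q - 1 : ℕ) : ℝ≥0∞) := by
        have h : q = 1 + (q - 1) := by omega
        exact_mod_cast h
      rw [this, add_mul, one_mul]
    rw [e2] at h1
    have h2 : m univ ≤ (s⁻¹) ^ q * ∫⁻ a, X a ^ q ∂m :=
      (ENNReal.add_le_add_iff_right (ENNReal.mul_ne_top (ENNReal.natCast_ne_top _) hM)).1 h1
    have e3 : s ^ q * ((s⁻¹) ^ q * ∫⁻ a, X a ^ q ∂m) = ∫⁻ a, X a ^ q ∂m := by
      rw [← mul_assoc, ← mul_pow, ENNReal.mul_inv_cancel hs0 hst, one_pow, one_mul]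
    calc (∫⁻ a, X a ∂m) ^ q = m univ ^ (q - 1) * (s ^ q * m univ) := by
          rw [hI, mul_pow]
          have : m univ ^ q = m univ ^ (q - 1) * m univ := by
            rw [← pow_succ]
            congr 1
            omega
          rw [this]
          ring
      _ ≤ m univ ^ (q - 1) * (s ^ q * ((s⁻¹) ^ q * ∫⁻ a, X a ^ q ∂m)) := by gcongr
      _ = _ := by rw [e3]

/-- `(∫ X) ^ (-q) ≤ M ^ (-q - 1) ∫ X ^ (-q)` -/
theorem jen_low (m : Measure α) (hM : m univ ≠ ⊤) (hM0 : m univ ≠ 0) (X : α → ℝ≥0∞)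
    (hX : Measurable X) (q : ℕ) (hq : 1 ≤ q) :
    ((∫⁻ a, X a ∂m)⁻¹) ^ q ≤ (m univ)⁻¹ ^ (q + 1) * ∫⁻ a, (X a)⁻¹ ^ q ∂m := by
  rcases eq_or_ne (∫⁻ a, X a ∂m) ⊤ with ht | ht
  · rw [ht, ENNReal.inv_top, zero_pow (by omega)]
    exact zero_le
  rcases eq_or_ne (∫⁻ a, X a ∂m) 0 with h0 | h0
  · have h1 : X =ᵐ[m] 0 := (lintegral_eq_zero_iff hX).1 h0
    have h2 : ∫⁻ a, (X a)⁻¹ ^ q ∂m = ⊤ := by
      have : ∫⁻ a, (X a)⁻¹ ^ q ∂m = ∫⁻ _, ⊤ ∂m := by
        apply lintegral_congr_ae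
        filter_upwards [h1] with a ha
        rw [ha]
        simp [ENNReal.top_pow (by omega : q ≠ 0)]
      rw [this, lintegral_const, ENNReal.top_mul hM0]
    rw [h2, ENNReal.mul_top]
    · exact le_top
    · exact pow_ne_zero _ (ENNReal.inv_ne_zero.2 hM)
  · obtain ⟨s, hs⟩ : ∃ s, s = (∫⁻ a, X a ∂m) / m univ := ⟨_, rfl⟩
    have hs0 : s ≠ 0 := by
      rw [hs]
      exact (ENNReal.div_pos h0 hM).ne'
    have hst : s ≠ ⊤ := by
      rw [hs]
      exact ENNReal.div_ne_top ht hM0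
    have hI : ∫⁻ a, X a ∂m = s * m univ := by
      rw [hs, ENNReal.div_mul_cancel hM0 hM]
    have h1 : ∀ a, (1 + q : ℝ≥0∞) ≤ s ^ q * (X a)⁻¹ ^ q + q * (s⁻¹ * X a) := by
      intro a
      have h2 := tan_low q (s⁻¹ * X a)
      have h3 : (s⁻¹ * X a)⁻¹ = s * (X a)⁻¹ := by
        rw [ENNReal.mul_inv (Or.inl (ENNReal.inv_ne_zero.2 hst))
          (Or.inl (ENNReal.inv_ne_top.2 hs0)), inv_inv]
      rw [h3, mul_pow] at h2
      exact h2
    have hXm : Measurable fun a => (X a)⁻¹ ^ q := hX.inv.pow_const q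
    have h4 : (1 + q : ℝ≥0∞) * m univ ≤ s ^ q * ∫⁻ a, (X a)⁻¹ ^ q ∂m + q * m univ := by
      calc (1 + q : ℝ≥0∞) * m univ = ∫⁻ _, (1 + q : ℝ≥0∞) ∂m := by rw [lintegral_const]
        _ ≤ ∫⁻ a, s ^ q * (X a)⁻¹ ^ q + q * (s⁻¹ * X a) ∂m := lintegral_mono h1
        _ = s ^ q * ∫⁻ a, (X a)⁻¹ ^ q ∂m + q * (s⁻¹ * ∫⁻ a, X a ∂m) := by
            rw [lintegral_add_right _ ((hX.const_mul _).const_mul _),
              lintegral_const_mul _ hXm,
              lintegral_const_mul _ (hX.const_mul _), lintegral_const_mul _ hX]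
        _ = _ := by
            rw [hI, ← mul_assoc s⁻¹, ENNReal.inv_mul_cancel hs0 hst, one_mul]
    rw [add_mul, one_mul] at h4
    have h5 : m univ ≤ s ^ q * ∫⁻ a, (X a)⁻¹ ^ q ∂m :=
      (ENNReal.add_le_add_iff_right (ENNReal.mul_ne_top (ENNReal.natCast_ne_top _) hM)).1 h4
    have e1 : (∫⁻ a, X a ∂m)⁻¹ = s⁻¹ * (m univ)⁻¹ := by
      rw [hI, ENNReal.mul_inv (Or.inl hs0) (Or.inl hst)]
    have e2 : (s⁻¹) ^ q * (s ^ q * ∫⁻ a, (X a)⁻¹ ^ q ∂m) = ∫⁻ a, (X a)⁻¹ ^ q ∂m := by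
      rw [← mul_assoc, ← mul_pow, ENNReal.inv_mul_cancel hs0 hst, one_pow, one_mul]
    calc ((∫⁻ a, X a ∂m)⁻¹) ^ q = (m univ)⁻¹ ^ (q + 1) * ((s⁻¹) ^ q * m univ) := by
          rw [e1, mul_pow, pow_succ]
          have : (m univ)⁻¹ * m univ = 1 := ENNReal.inv_mul_cancel hM0 hM
          calc s⁻¹ ^ q * (m univ)⁻¹ ^ q = s⁻¹ ^ q * (m univ)⁻¹ ^ q * ((m univ)⁻¹ * m univ) := by
                rw [this, mul_one]
            _ = _ := by ring
      _ ≤ (m univ)⁻¹ ^ (q + 1) * ((s⁻¹) ^ q * (s ^ q * ∫⁻ a, (X a)⁻¹ ^ q ∂m)) := by gcongr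
      _ = _ := by rw [e2]

/-- pointwise bound of `Y ^ (-q)` -/
theorem neg_pt (q : ℕ) (hq : 1 ≤ q) (Y : ℝ) :
    (ENNReal.ofReal Y)⁻¹ ^ q ≤ 1 + ∑' j : ℕ, (2 : ℝ≥0∞) ^ ((j + 1) * q) *
      (if Y < 2 * (1 / 2 : ℝ) ^ j then 1 else 0) := by
  rcases le_or_gt Y 0 with h0 | h0
  · have : ∑' j : ℕ, (2 : ℝ≥0∞) ^ ((j + 1) * q) *
        (if Y < 2 * (1 / 2 : ℝ) ^ j then 1 else 0) = ⊤ := by
      rw [← top_le_iff]
      have h1 : ∑' _ : ℕ, (1 : ℝ≥0∞) = ⊤ := ENNReal.tsum_const_eq_top_of_ne_zero one_ne_zero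
      rw [← h1]
      refine ENNReal.tsum_le_tsum fun j => ?_
      have h2 : Y < 2 * (1 / 2 : ℝ) ^ j := h0.trans_lt (by positivity)
      rw [if_pos h2, mul_one]
      exact one_le_pow₀ (by norm_num)
    rw [this]
    simp
  rcases le_or_gt 1 Y with h1 | h1
  · have : (ENNReal.ofReal Y)⁻¹ ^ q ≤ 1 := by
      apply pow_le_one' 
      rw [ENNReal.inv_le_one]
      exact ENNReal.one_le_ofReal.2 h1
    exact this.trans le_self_add
  · obtain ⟨n, hn1, hn2⟩ := exists_nat_pow_near_of_lt_one h0 h1.le (by norm_num : (0 : ℝ) < 1 / 2)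
      (by norm_num)
    have h2 : Y < 2 * (1 / 2 : ℝ) ^ n := hn2.trans_lt (by
      have : (0 : ℝ) < (1 / 2) ^ n := by positivity
      linarith)
    have h3 : (ENNReal.ofReal Y)⁻¹ ^ q ≤ (2 : ℝ≥0∞) ^ ((n + 1) * q) := by
      rw [pow_mul]
      apply pow_le_pow_left₀ (zero_le)
      rw [ENNReal.inv_le_iff_inv_le]
      have h4 : ((2 : ℝ≥0∞) ^ (n + 1))⁻¹ = ENNReal.ofReal ((1 / 2 : ℝ) ^ (n + 1)) := by
        rw [ENNReal.ofReal_pow (by norm_num), ENNReal.inv_pow]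
        congr 1
        rw [one_div, ENNReal.ofReal_inv_of_pos (by norm_num)]
        simp
      rw [h4]
      exact ENNReal.ofReal_le_ofReal hn1.le
    calc (ENNReal.ofReal Y)⁻¹ ^ q ≤ (2 : ℝ≥0∞) ^ ((n + 1) * q) *
          (if Y < 2 * (1 / 2 : ℝ) ^ n then 1 else 0) := by
          rw [if_pos h2, mul_one]; exact h3
      _ ≤ ∑' j : ℕ, (2 : ℝ≥0∞) ^ ((j + 1) * q) *
          (if Y < 2 * (1 / 2 : ℝ) ^ j then 1 else 0) :=
          ENNReal.le_tsum (f := fun j : ℕ => (2 : ℝ≥0∞) ^ ((j + 1) * q) *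
            (if Y < 2 * (1 / 2 : ℝ) ^ j then 1 else 0)) n
      _ ≤ _ := le_add_self

/-- negative moments from the probabilities of small values -/
theorem neg_mom (P : Measure α) [IsProbabilityMeasure P] (Y : α → ℝ) (hY : Measurable Y)
    (q : ℕ) (hq : 1 ≤ q) (C : ℝ) (hC : 0 ≤ C)
    (h : ∀ t : ℝ, 0 < t → P {a | Y a < t} ≤ ENNReal.ofReal (C * t ^ (q + 1))) :
    ∫⁻ a, (ENNReal.ofReal (Y a))⁻¹ ^ q ∂P ≤ ENNReal.ofReal (1 + 2 ^ (2 * q + 2) * C) := by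
  have hms : ∀ j : ℕ, MeasurableSet {a | Y a < 2 * (1 / 2 : ℝ) ^ j} := fun j =>
    measurableSet_lt hY measurable_const
  have hme : ∀ j : ℕ, Measurable fun a => (2 : ℝ≥0∞) ^ ((j + 1) * q) *
      (if Y a < 2 * (1 / 2 : ℝ) ^ j then 1 else 0) := fun j =>
    (Measurable.ite (hms j) measurable_const measurable_const).const_mul _
  calc ∫⁻ a, (ENNReal.ofReal (Y a))⁻¹ ^ q ∂P
      ≤ ∫⁻ a, 1 + ∑' j : ℕ, (2 : ℝ≥0∞) ^ ((j + 1) * q) *
        (if Y a < 2 * (1 / 2 : ℝ) ^ j then 1 else 0) ∂P := lintegral_mono fun a => neg_pt q hq (Y a)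
    _ = 1 + ∑' j : ℕ, (2 : ℝ≥0∞) ^ ((j + 1) * q) * P {a | Y a < 2 * (1 / 2 : ℝ) ^ j} := by
        rw [lintegral_add_left measurable_const, lintegral_const, measure_univ, mul_one,
          lintegral_tsum fun j => (hme j).aemeasurable]
        congr 1
        refine tsum_congr fun j => ?_
        rw [lintegral_const_mul _ (Measurable.ite (hms j) measurable_const measurable_const)]
        congr 1
        have : (fun a => if Y a < 2 * (1 / 2 : ℝ) ^ j then (1 : ℝ≥0∞) else 0)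
            = {a | Y a < 2 * (1 / 2 : ℝ) ^ j}.indicator 1 := by
          funext a
          simp [Set.indicator_apply]
        rw [this, lintegral_indicator_one (hms j)]
    _ ≤ 1 + ∑' j : ℕ, ENNReal.ofReal (2 ^ (2 * q + 1) * C * (1 / 2 : ℝ) ^ j) := by
        gcongr with j
        calc (2 : ℝ≥0∞) ^ ((j + 1) * q) * P {a | Y a < 2 * (1 / 2 : ℝ) ^ j}
            ≤ (2 : ℝ≥0∞) ^ ((j + 1) * q) *
              ENNReal.ofReal (C * (2 * (1 / 2 : ℝ) ^ j) ^ (q + 1)) := by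
              gcongr
              exact h _ (by positivity)
          _ = ENNReal.ofReal (2 ^ ((j + 1) * q) * (C * (2 * (1 / 2 : ℝ) ^ j) ^ (q + 1))) := by
              rw [ENNReal.ofReal_mul (by positivity : (0 : ℝ) ≤ 2 ^ ((j + 1) * q))]
              congr 1
              rw [ENNReal.ofReal_pow (by norm_num)]
              simp
          _ = _ := by
              congr 1
              have e1 : (2 : ℝ) ^ ((j + 1) * q) * ((1 / 2 : ℝ) ^ j) ^ (q + 1)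
                  = 2 ^ q * (1 / 2 : ℝ) ^ j := by
                have e2 : (2 : ℝ) ^ ((j + 1) * q) = 2 ^ q * (2 ^ j) ^ q := by
                  rw [← pow_mul, ← pow_add]; congr 1; ring
                rw [e2, pow_succ, mul_assoc, ← mul_assoc ((2 ^ j) ^ q), ← mul_pow, ← mul_pow]
                norm_num
              rw [mul_pow]
              calc 2 ^ ((j + 1) * q) * (C * (2 ^ (q + 1) * ((1 / 2 : ℝ) ^ j) ^ (q + 1)))
                  = C * 2 ^ (q + 1) * (2 ^ ((j + 1) * q) * ((1 / 2 : ℝ) ^ j) ^ (q + 1)) := by ring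
                _ = _ := by rw [e1]; ring
    _ = ENNReal.ofReal (1 + 2 ^ (2 * q + 2) * C) := by
        have hs : Summable fun j : ℕ => 2 ^ (2 * q + 1) * C * (1 / 2 : ℝ) ^ j :=
          summable_geometric_two.mul_left _
        rw [← ENNReal.ofReal_tsum_of_nonneg (fun j => by positivity) hs, tsum_mul_left,
          tsum_geometric_two, ENNReal.ofReal_add zero_le_one (by positivity), ENNReal.ofReal_one]
        congr 2
        ring

end

end Pool.Agent.U281.WG
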