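import Pool.Agent.U281.WG.Abs
import Pool.Agent.U281.LU.Site

/-!
The local density of states from the full limiting absorption principle.
-/

set_option autoImplicit false

namespace Pool.Agent.U281.WG

open MeasureTheory Filter Set
open scoped ENNReal Topology
open Pool.Agent.W792.WA Pool.Agent.U281.LAP Pool.Agent.U281.LU Pool.Agent.W792.LL

noncomputable section

variable {d : ℕ}

/-- constants -/
def cN (C : ℕ → ℝ) (q : ℕ) : ℝ := C q + 1 + 2 ^ (2 * q + 2) * (C (q + 1) * Real.pi ^ (q + 1))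

theorem cN_pos {C : ℕ → ℝ} (hC : ∀ q, 0 ≤ C q) (q : ℕ) : 0 < cN C q := by
  have h1 := hC q
  have h2 := hC (q + 1)
  have := Real.pi_pos
  unfold cN
  positivity

/-- `Mo` as a `lintegral` bound for a smaller real function -/
theorem mo_li {ν : Measure ℝ} [IsProbabilityMeasure ν] {q : ℕ} {F : ((Fin d → ℤ) → ℝ) → ℂ} {C : ℝ}
    (h : Mo ν q F C) (X : ((Fin d → ℤ) → ℝ) → ℝ) (hX : ∀ ω, X ω ≤ ‖F ω‖) :
    ∫⁻ ω, ENNReal.ofReal (X ω) ^ q ∂(Pn ν (Fin d → ℤ)) ≤ ENNReal.ofReal C := by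
  calc ∫⁻ ω, ENNReal.ofReal (X ω) ^ q ∂(Pn ν (Fin d → ℤ))
      ≤ ∫⁻ ω, ENNReal.ofReal (‖F ω‖ ^ q) ∂(Pn ν (Fin d → ℤ)) := by
        refine lintegral_mono fun ω => ?_
        rw [ENNReal.ofReal_pow (norm_nonneg _)]
        exact pow_le_pow_left₀ (zero_le) (ENNReal.ofReal_le_ofReal (hX ω)) q
    _ = ENNReal.ofReal (∫ ω, ‖F ω‖ ^ q ∂(Pn ν (Fin d → ℤ))) :=
        (ofReal_integral_eq_lintegral_ofReal h.1 (Eventually.of_forall fun ω => by positivity)).symm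
    _ ≤ _ := ENNReal.ofReal_le_ofReal h.2

theorem pow3 (x y z : ℝ) (hx : 0 ≤ x) (hy : 0 ≤ y) (hz : 0 ≤ z) (q : ℕ) :
    (x + y + z) ^ q ≤ 3 ^ q * (x ^ q + y ^ q + z ^ q) := by
  obtain ⟨m, hm⟩ : ∃ m, m = max x (max y z) := ⟨_, rfl⟩
  have h1 : x ≤ m := by rw [hm]; exact le_max_left _ _
  have h2 : y ≤ m := by rw [hm]; exact (le_max_left _ _).trans (le_max_right _ _)
  have h3 : z ≤ m := by rw [hm]; exact (le_max_right _ _).trans (le_max_right _ _)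
  have hm0 : 0 ≤ m := hx.trans h1
  have h4 : m ^ q ≤ x ^ q + y ^ q + z ^ q := by
    have hx' := pow_nonneg hx q
    have hy' := pow_nonneg hy q
    have hz' := pow_nonneg hz q
    rcases max_choice x (max y z) with h | h
    · rw [hm, h]; linarith
    · rcases max_choice y z with h' | h'
      · rw [hm, h, h']; linarith
      · rw [hm, h, h']; linarith
  calc (x + y + z) ^ q ≤ (3 * m) ^ q := pow_le_pow_left₀ (by positivity) (by linarith) q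
    _ = 3 ^ q * m ^ q := mul_pow _ _ _
    _ ≤ _ := by gcongr

theorem Mo.tri {ν : Measure ℝ} [IsProbabilityMeasure ν] {q : ℕ}
    {F G H : ((Fin d → ℤ) → ℝ) → ℂ} {e : ℝ} (hF : Mo ν q F e) (hG : Mo ν q G e) (hH : Mo ν q H e)
    (X : ((Fin d → ℤ) → ℝ) → ℝ) (hX : ∀ ω, X ω ≤ ‖F ω‖ + ‖G ω‖ + ‖H ω‖) :
    ∫⁻ ω, ENNReal.ofReal (X ω) ^ q ∂(Pn ν (Fin d → ℤ)) ≤ ENNReal.ofReal (3 ^ (q + 1) * e) := by
  calc ∫⁻ ω, ENNReal.ofReal (X ω) ^ q ∂(Pn ν (Fin d → ℤ))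
      ≤ ∫⁻ ω, ENNReal.ofReal (3 ^ q * (‖F ω‖ ^ q + ‖G ω‖ ^ q + ‖H ω‖ ^ q))
          ∂(Pn ν (Fin d → ℤ)) := by
        refine lintegral_mono fun ω => ?_
        calc ENNReal.ofReal (X ω) ^ q
            ≤ ENNReal.ofReal (‖F ω‖ + ‖G ω‖ + ‖H ω‖) ^ q :=
              pow_le_pow_left₀ (zero_le) (ENNReal.ofReal_le_ofReal (hX ω)) q
          _ = ENNReal.ofReal ((‖F ω‖ + ‖G ω‖ + ‖H ω‖) ^ q) := by
              rw [ENNReal.ofReal_pow (by positivity)]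
          _ ≤ _ := ENNReal.ofReal_le_ofReal
              (pow3 _ _ _ (norm_nonneg _) (norm_nonneg _) (norm_nonneg _) q)
    _ = ENNReal.ofReal (∫ ω, 3 ^ q * (‖F ω‖ ^ q + ‖G ω‖ ^ q + ‖H ω‖ ^ q)
          ∂(Pn ν (Fin d → ℤ))) :=
        (ofReal_integral_eq_lintegral_ofReal (((hF.1.add hG.1).add hH.1).const_mul _)
          (Eventually.of_forall fun ω => by
            show (0 : ℝ) ≤ 3 ^ q * (‖F ω‖ ^ q + ‖G ω‖ ^ q + ‖H ω‖ ^ q)
            positivity)).symm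
    _ ≤ _ := by
        apply ENNReal.ofReal_le_ofReal
        have e1 : ∫ ω, (‖F ω‖ ^ q + ‖G ω‖ ^ q + ‖H ω‖ ^ q) ∂(Pn ν (Fin d → ℤ))
            = ∫ ω, (‖F ω‖ ^ q + ‖G ω‖ ^ q) ∂(Pn ν (Fin d → ℤ))
              + ∫ ω, ‖H ω‖ ^ q ∂(Pn ν (Fin d → ℤ)) :=
          integral_add (f := fun ω => ‖F ω‖ ^ q + ‖G ω‖ ^ q) (hF.1.add hG.1) hH.1
        rw [integral_const_mul, e1, integral_add hF.1 hG.1, pow_succ, mul_assoc]
        have h1 := hF.2
        have h2 := hG.2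
        have h3 := hH.2
        gcongr
        linarith

/-- The local density of states. -/
def dn (B : (Fin d → ℤ) → ((Fin d → ℤ) → ℝ) → ℝ → ℂ) (x : Fin d → ℤ)
    (ω : (Fin d → ℤ) → ℝ) (E : ℝ) : ℝ := max 0 ((B x ω E).im / Real.pi)

theorem dn_meas {B : (Fin d → ℤ) → ((Fin d → ℤ) → ℝ) → ℝ → ℂ} {x : Fin d → ℤ}
    (h : Measurable (Function.uncurry (B x))) : Measurable (Function.uncurry (dn B x)) :=
  measurable_const.max ((Complex.measurable_im.comp h).div_const _)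

theorem pi_ge : (1 : ℝ) ≤ Real.pi := by linarith [Real.pi_gt_three]

theorem dn_le (B : (Fin d → ℤ) → ((Fin d → ℤ) → ℝ) → ℝ → ℂ) (x : Fin d → ℤ)
    (ω : (Fin d → ℤ) → ℝ) (E : ℝ) : dn B x ω E ≤ ‖B x ω E‖ := by
  unfold dn
  refine max_le (norm_nonneg _) ?_
  have h1 := Complex.abs_im_le_norm (B x ω E)
  have h2 := le_abs_self (B x ω E).im
  rw [div_le_iff₀ Real.pi_pos]
  nlinarith [norm_nonneg (B x ω E), pi_ge]

theorem im_div_le (u v : ℂ) : |u.im / Real.pi - v.im / Real.pi| ≤ ‖u - v‖ := by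
  rw [← sub_div, abs_div, abs_of_pos Real.pi_pos, div_le_iff₀ Real.pi_pos, ← Complex.sub_im]
  have h1 := Complex.abs_im_le_norm (u - v)
  nlinarith [norm_nonneg (u - v), pi_ge]

theorem dn_sub (B : (Fin d → ℤ) → ((Fin d → ℤ) → ℝ) → ℝ → ℂ) (x : Fin d → ℤ)
    (ω : (Fin d → ℤ) → ℝ) (E E' : ℝ) :
    |dn B x ω E - dn B x ω E'| ≤ ‖B x ω E - B x ω E'‖ := by
  refine le_trans ?_ (im_div_le _ _)
  unfold dn
  rw [max_comm 0, max_comm 0]
  exact abs_max_sub_max_le_abs _ _ _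

theorem dn_subG (B : (Fin d → ℤ) → ((Fin d → ℤ) → ℝ) → ℝ → ℂ) (x : Fin d → ℤ)
    (ω : (Fin d → ℤ) → ℝ) (E : ℝ) (u : ℂ) (hu : 0 ≤ u.im) :
    |u.im / Real.pi - dn B x ω E| ≤ ‖u - B x ω E‖ := by
  refine le_trans ?_ (im_div_le _ _)
  have h : u.im / Real.pi = max (u.im / Real.pi) 0 := by
    rw [max_eq_left (div_nonneg hu Real.pi_pos.le)]
  unfold dn
  rw [h, max_comm 0]
  refine (abs_max_sub_max_le_abs _ _ _).trans ?_
  rw [← h]

variable {K : C(UnitAddTorus (Fin d), ℝ)} {lam : ℝ} {ν : Measure ℝ} [IsProbabilityMeasure ν]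
  [IsProbabilityMeasure (ν.map fun t => lam * t)] {a b η₀ : ℝ} {C : ℕ → ℝ} {θ : ℕ → ℝ → ℝ}

theorem Gr_im_nonneg (K : C(UnitAddTorus (Fin d), ℝ)) (lam : ℝ) (ω : (Fin d → ℤ) → ℝ) {z : ℂ}
    (hz : 0 < z.im) (x : Fin d → ℤ) : 0 ≤ (Gr K lam ω z x x).im := by
  rw [Gr_diag K lam ω hz x]
  exact (gf_facts K (pot lam x ω) hz).1

/-- small distances of means -/
theorem ofReal_near {Ω : Type*} [MeasurableSpace Ω] (P : Measure Ω) [IsProbabilityMeasure P]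
    (X Y : Ω → ℝ) (hY : Measurable Y) (hY0 : ∀ ω, 0 ≤ Y ω) (e : ℝ)
    (h : ∫⁻ ω, ENNReal.ofReal |X ω - Y ω| ^ 1 ∂P ≤ ENNReal.ofReal e) :
    ∫⁻ ω, ENNReal.ofReal (X ω) ∂P ≤ ∫⁻ ω, ENNReal.ofReal (Y ω) ∂P + ENNReal.ofReal e := by
  calc ∫⁻ ω, ENNReal.ofReal (X ω) ∂P
      ≤ ∫⁻ ω, ENNReal.ofReal (Y ω) + ENNReal.ofReal |X ω - Y ω| ^ 1 ∂P := by
        refine lintegral_mono fun ω => ?_
        rw [pow_one, ← ENNReal.ofReal_add (hY0 ω) (abs_nonneg _)]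
        apply ENNReal.ofReal_le_ofReal
        linarith [le_abs_self (X ω - Y ω)]
    _ = ∫⁻ ω, ENNReal.ofReal (Y ω) ∂P + ∫⁻ ω, ENNReal.ofReal |X ω - Y ω| ^ 1 ∂P :=
        lintegral_add_left hY.ennreal_ofReal _
    _ ≤ _ := by gcongr

theorem main (h0 : 0 < η₀) (hC : ∀ q, 0 ≤ C q) (hθ : ∀ q e, 0 < e → 0 < θ q e)
    (h : FullC K lam ν a b η₀ C θ) :
    ∃ D : (Fin d → ℤ) → ((Fin d → ℤ) → ℝ) → ℝ → ℝ,
      (∀ x, Measurable (Function.uncurry (D x))) ∧ (∀ x ω E, 0 ≤ D x ω E) ∧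
      (∀ᵐ ω ∂(Pn ν (Fin d → ℤ)), ∀ x : Fin d → ℤ, ∃ μ : Measure ℝ, IsFiniteMeasure μ ∧
        (∀ z : ℂ, 0 < z.im → Gr K lam ω z x x = ∫ E : ℝ, 1 / ((E : ℂ) - z) ∂μ) ∧
        μ.restrict (Set.Ioo a b) = (volume.restrict (Set.Ioo a b)).withDensity
          fun E => ENNReal.ofReal (D x ω E)) ∧
      (∀ q : ℕ, 1 ≤ q → ∀ (x : Fin d → ℤ) (E : ℝ), a ≤ E → E ≤ b →
        ∫⁻ ω, ENNReal.ofReal (D x ω E) ^ q ∂(Pn ν (Fin d → ℤ)) ≤ ENNReal.ofReal (cN C q) ∧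
        ∫⁻ ω, (ENNReal.ofReal (1 + (lam * ω x) ^ 2) * ENNReal.ofReal (D x ω E))⁻¹ ^ q
          ∂(Pn ν (Fin d → ℤ)) ≤ ENNReal.ofReal (cN C q)) ∧
      (∀ (q : ℕ) (e : ℝ), 1 ≤ q → 0 < e → ∀ x : Fin d → ℤ, ∀ z ∈ St a b η₀, z.im ≤ θ q e →
        ∫⁻ ω, ENNReal.ofReal |(Gr K lam ω z x x).im / Real.pi - D x ω z.re| ^ q
          ∂(Pn ν (Fin d → ℤ)) ≤ ENNReal.ofReal e) ∧
      (∀ (q : ℕ) (e : ℝ), 1 ≤ q → 0 < e → ∀ (x : Fin d → ℤ) (E E' : ℝ), a ≤ E → E ≤ b →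
        a ≤ E' → E' ≤ b → |E - E'| ≤ θ q (e / 3 ^ (q + 1)) →
        ∫⁻ ω, ENNReal.ofReal |D x ω E - D x ω E'| ^ q ∂(Pn ν (Fin d → ℤ)) ≤ ENNReal.ofReal e) ∧
      (∀ (x : Fin d → ℤ) (E : ℝ), a ≤ E → E ≤ b →
        ∫⁻ ω, ENNReal.ofReal (D x ω E) ∂(Pn ν (Fin d → ℤ))
          = ∫⁻ ω, ENNReal.ofReal (D 0 ω E) ∂(Pn ν (Fin d → ℤ))) := by
  obtain ⟨B, hB1, hB2, hB3, hB4⟩ := h.bdry
  have hconv : ∀ (q : ℕ) (e : ℝ), 1 ≤ q → 0 < e → ∀ x : Fin d → ℤ, ∀ z ∈ St a b η₀,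
      z.im ≤ θ q e → ∫⁻ ω, ENNReal.ofReal |(Gr K lam ω z x x).im / Real.pi - dn B x ω z.re| ^ q
          ∂(Pn ν (Fin d → ℤ)) ≤ ENNReal.ofReal e := by
    intro q e hq he x z hz hzθ
    exact mo_li (hB3 q e hq he x z hz hzθ) _ fun ω =>
      dn_subG B x ω z.re _ (Gr_im_nonneg K lam ω hz.2.2.1 x)
  refine ⟨dn B, fun x => dn_meas (hB1 x), fun x ω E => le_max_left _ _, ?_, ?_, hconv, ?_, ?_⟩
  · filter_upwards [hB4] with ω hω x
    obtain ⟨-, μ, hμ1, hμ2, hμ3⟩ := hω x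
    refine ⟨μ, hμ1, hμ2, ?_⟩
    rw [hμ3]
    congr 1
    funext E
    unfold dn
    rcases le_total 0 ((B x ω E).im / Real.pi) with h1 | h1
    · rw [max_eq_right h1]
    · rw [max_eq_left h1, ENNReal.ofReal_zero, ENNReal.ofReal_of_nonpos h1]
  · intro q hq x E ha hb
    have h1 := hC q
    have h2 := hC (q + 1)
    have hpi := Real.pi_pos
    constructor
    · refine (mo_li (hB2 q hq x E ha hb).1 _ fun ω => dn_le B x ω E).trans ?_
      apply ENNReal.ofReal_le_ofReal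
      unfold cN
      have : 0 ≤ 2 ^ (2 * q + 2) * (C (q + 1) * Real.pi ^ (q + 1)) := by positivity
      linarith
    · have h3 : ∀ ω : (Fin d → ℤ) → ℝ, ENNReal.ofReal (1 + (lam * ω x) ^ 2) *
          ENNReal.ofReal (dn B x ω E) = ENNReal.ofReal ((1 + (lam * ω x) ^ 2) * dn B x ω E) :=
        fun ω => (ENNReal.ofReal_mul (by positivity)).symm
      simp_rw [h3]
      have hmY : Measurable fun ω : (Fin d → ℤ) → ℝ => (1 + (lam * ω x) ^ 2) * dn B x ω E := by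
        have h4 : Measurable fun ω : (Fin d → ℤ) → ℝ => (1 + (lam * ω x) ^ 2) := by fun_prop
        exact h4.mul (dn_meas (hB1 x)).of_uncurry_right
      refine (neg_mom _ _ hmY q hq (C (q + 1) * Real.pi ^ (q + 1)) (by positivity) ?_).trans ?_
      · intro t ht
        refine le_trans (measure_mono ?_) ((((hB2 (q + 1) (by omega) x E ha hb).2
          (Real.pi * t) (by positivity))).trans_eq ?_)
        · intro ω hω
          have h5 : (1 + (lam * ω x) ^ 2) * dn B x ω E < t := hω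
          have h6 : (B x ω E).im / Real.pi ≤ dn B x ω E := le_max_right _ _
          have h7 : (1 + (lam * ω x) ^ 2) * ((B x ω E).im / Real.pi) < t :=
            lt_of_le_of_lt (mul_le_mul_of_nonneg_left h6 (by positivity)) h5
          show (1 + (lam * ω x) ^ 2) * (B x ω E).im < Real.pi * t
          rw [mul_div_assoc', div_lt_iff₀ hpi] at h7
          linarith
        · rw [mul_pow, mul_assoc]
      · apply ENNReal.ofReal_le_ofReal
        unfold cN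
        linarith
  · intro q e hq he x E E' ha hb ha' hb' hE
    obtain ⟨e', he'⟩ : ∃ e', e' = e / 3 ^ (q + 1) := ⟨_, rfl⟩
    have he'0 : 0 < e' := by rw [he']; positivity
    obtain ⟨η, hη⟩ : ∃ η, η = min η₀ (θ q e') := ⟨_, rfl⟩
    have hη0 : 0 < η := by
      rw [hη]
      exact lt_min h0 (hθ q e' he'0)
    have hz : (⟨E, η⟩ : ℂ) ∈ St a b η₀ := ⟨ha, hb, hη0, by rw [hη]; exact min_le_left _ _⟩
    have hz' : (⟨E', η⟩ : ℂ) ∈ St a b η₀ := ⟨ha', hb', hη0, by rw [hη]; exact min_le_left _ _⟩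
    have hηθ : η ≤ θ q e' := by rw [hη]; exact min_le_right _ _
    have k1 := hB3 q e' hq he'0 x _ hz hηθ
    have k2 := hB3 q e' hq he'0 x _ hz' hηθ
    have hnorm : ‖(⟨E, η⟩ : ℂ) - ⟨E', η⟩‖ ≤ θ q e' := by
      have e1 : (⟨E, η⟩ : ℂ) - ⟨E', η⟩ = ((E - E' : ℝ) : ℂ) := by
        apply Complex.ext <;> simp
      rw [e1, Complex.norm_real, Real.norm_eq_abs, he']
      exact hE
    have k3 := h.cont q e' hq he'0 x _ hz _ hz' hnorm
    have k4 := Mo.tri k1 k3 k2 (fun ω => |dn B x ω E - dn B x ω E'|) (by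
      intro ω
      refine (dn_sub B x ω E E').trans ?_
      have e1 : B x ω E - B x ω E' = -(Gr K lam ω ⟨E, η⟩ x x - B x ω E)
          + (Gr K lam ω ⟨E, η⟩ x x - Gr K lam ω ⟨E', η⟩ x x)
          + (Gr K lam ω ⟨E', η⟩ x x - B x ω E') := by ring
      rw [e1]
      refine (norm_add_le _ _).trans ?_
      refine add_le_add ((norm_add_le _ _).trans ?_) le_rfl
      rw [norm_neg])
    refine k4.trans_eq ?_
    congr 1
    rw [he']
    field_simp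
  · intro x E ha hb
    -- the mean of the imaginary part of the Green function does not depend on the site
    have hm : ∀ (x : Fin d → ℤ) {z : ℂ} (_ : 0 < z.im),
        ∫⁻ ω, ENNReal.ofReal ((Gr K lam ω z x x).im / Real.pi) ∂(Pn ν (Fin d → ℤ))
          = ∫⁻ v, ENNReal.ofReal ((gf K 1 v z).im / Real.pi)
            ∂(Pn (ν.map fun t => lam * t) (Fin d → ℤ)) := by
      intro x z hz
      have hF : Measurable fun v : (Fin d → ℤ) → ℝ => ENNReal.ofReal ((gf K 1 v z).im / Real.pi) :=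
        ((Complex.measurable_im.comp (gf_meas K hz)).div_const _).ennreal_ofReal
      have hmp := pot_mp (d := d) ν lam x
      rw [← hmp.lintegral_comp hF]
      refine lintegral_congr fun ω => ?_
      rw [Gr_diag K lam ω hz x]
    have key : ∀ x y : Fin d → ℤ, ∫⁻ ω, ENNReal.ofReal (dn B x ω E) ∂(Pn ν (Fin d → ℤ))
        ≤ ∫⁻ ω, ENNReal.ofReal (dn B y ω E) ∂(Pn ν (Fin d → ℤ)) := by
      intro x y
      have hfin : ∫⁻ ω, ENNReal.ofReal (dn B y ω E) ∂(Pn ν (Fin d → ℤ)) < ⊤ := by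
        have := mo_li (hB2 1 le_rfl y E ha hb).1 _ fun ω => dn_le B y ω E
        simp only [pow_one] at this
        exact this.trans_lt ENNReal.ofReal_lt_top
      refine ENNReal.le_of_forall_pos_le_add fun e he _ => ?_
      obtain ⟨e', he'⟩ : ∃ e' : ℝ, e' = e / 2 := ⟨_, rfl⟩
      have he'0 : 0 < e' := by rw [he']; exact half_pos he
      obtain ⟨η, hη⟩ : ∃ η, η = min η₀ (θ 1 e') := ⟨_, rfl⟩
      have hη0 : 0 < η := by
        rw [hη]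
        exact lt_min h0 (hθ 1 e' he'0)
      have hz : (⟨E, η⟩ : ℂ) ∈ St a b η₀ := ⟨ha, hb, hη0, by rw [hη]; exact min_le_left _ _⟩
      have hηθ : η ≤ θ 1 e' := by rw [hη]; exact min_le_right _ _
      have k1 := hconv 1 e' le_rfl he'0 x _ hz hηθ
      have k2 := hconv 1 e' le_rfl he'0 y _ hz hηθ
      have mG : ∀ x : Fin d → ℤ, Measurable fun ω : (Fin d → ℤ) → ℝ =>
          (Gr K lam ω ⟨E, η⟩ x x).im / Real.pi := fun x =>
        (Complex.measurable_im.comp (Gr_meas K lam hη0 x x)).div_const _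
      have mD : ∀ x : Fin d → ℤ, Measurable fun ω : (Fin d → ℤ) → ℝ => dn B x ω E := fun x =>
        (dn_meas (hB1 x)).of_uncurry_right
      have pG : ∀ (x : Fin d → ℤ) (ω : (Fin d → ℤ) → ℝ),
          0 ≤ (Gr K lam ω ⟨E, η⟩ x x).im / Real.pi := fun x ω =>
        div_nonneg (Gr_im_nonneg K lam ω hη0 x) Real.pi_pos.le
      have k3 := ofReal_near (Pn ν (Fin d → ℤ)) (fun ω => dn B x ω E)
        (fun ω => (Gr K lam ω ⟨E, η⟩ x x).im / Real.pi) (mG x) (pG x) e' (by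
          simp only [abs_sub_comm (dn B x _ E)]
          exact k1)
      have k4 := ofReal_near (Pn ν (Fin d → ℤ)) (fun ω => (Gr K lam ω ⟨E, η⟩ y y).im / Real.pi)
        (fun ω => dn B y ω E) (mD y) (fun ω => le_max_left _ _) e' k2
      rw [hm x (z := ⟨E, η⟩) hη0] at k3
      rw [hm y (z := ⟨E, η⟩) hη0] at k4
      refine k3.trans ((add_le_add_left k4 _).trans_eq ?_)
      rw [add_assoc, ← ENNReal.ofReal_add he'0.le he'0.le]
      congr 1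
      rw [he', add_halves]
      exact ENNReal.ofReal_coe_nnreal
    exact le_antisymm (key x 0) (key 0 x)

end

end Pool.Agent.U281.WG
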